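import Pool.Agent.H128.Cox.Lem

set_option autoImplicit false
set_option linter.unusedSectionVars false

/-! Signs of alternating sums of inverse orders of finite Coxeter groups. -/

namespace Pool.Agent.H128.Cox

open scoped RealInnerProductSpace
open MeasureTheory Lem

lemma coxeter_ext {B : Type} {M N : CoxeterMatrix B} (h : ∀ i j, M i j = N i j) : M = N := by
  cases M
  cases N
  congr
  funext i j
  exact h i j

/-- the elements of a set of elements of a set -/
def subEquiv {V : Type} (σ : Finset V) (U : Finset σ) :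
    U ≃ (U.map (Function.Embedding.subtype (fun v => v ∈ σ)) : Finset V) where
  toFun x := ⟨x.1.1, Finset.mem_map_of_mem _ x.2⟩
  invFun y := ⟨⟨y.1, by
    obtain ⟨z, hz, e⟩ := Finset.mem_map.1 y.2
    rw [← e]
    exact z.2⟩, by
    obtain ⟨z, hz, e⟩ := Finset.mem_map.1 y.2
    have : (⟨y.1, by rw [← e]; exact z.2⟩ : σ) = z := Subtype.ext e.symm
    rw [this]
    exact hz⟩
  left_inv _ := rfl
  right_inv _ := rfl

lemma res_res {V : Type} (M : CoxeterMatrix V) (σ : Finset V) (U : Finset σ) :
    (res (res M σ) U).reindex (subEquiv σ U) =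
      res M (U.map (Function.Embedding.subtype (fun v => v ∈ σ))) := by
  apply coxeter_ext
  intro i j
  rfl

noncomputable def resEquiv {V : Type} (M : CoxeterMatrix V) (σ : Finset V) (U : Finset σ) :
    (res M (U.map (Function.Embedding.subtype (fun v => v ∈ σ)))).Group ≃* (res (res M σ) U).Group := by
  rw [← res_res M σ U]
  exact (res (res M σ) U).reindexGroupEquiv (subEquiv σ U)

noncomputable def univEquiv {B : Type} [Fintype B] (M : CoxeterMatrix B) :
    (res M Finset.univ).Group ≃* M.Group := by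
  have e : M.reindex ((Equiv.subtypeUnivEquiv (p := fun i : B => i ∈ (Finset.univ : Finset B))
      (fun i => Finset.mem_univ i)).symm) = res M Finset.univ := by
    apply coxeter_ext
    intro i j
    rfl
  rw [← e]
  exact M.reindexGroupEquiv _

variable {B : Type} [Fintype B] [DecidableEq B]

lemma Vecs.restrict {M : CoxeterMatrix B} {E : Type} [NormedAddCommGroup E] [InnerProductSpace ℝ E]
    {n : B → E} (h : Vecs M n) (U : Finset B) : Vecs (res M U) (fun i : U => n i) where
  li := h.li.comp _ Subtype.val_injective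
  gram i j := h.gram i j

lemma cos_nonneg (m : ℕ) (hm : m ≠ 1) : 0 ≤ Real.cos (Real.pi / m) := by
  rcases Nat.eq_zero_or_pos m with rfl | h0
  · simp
  · have h2 : (2 : ℝ) ≤ m := by
      have : 2 ≤ m := by omega
      exact_mod_cast this
    have hp := Real.pi_pos
    refine Real.cos_nonneg_of_neg_pi_div_two_le_of_le ?_ ?_
    · have : 0 ≤ Real.pi / m := by positivity
      linarith
    · exact div_le_div_of_nonneg_left hp.le two_pos h2

/-- The sign of the alternating sum of the inverse orders of the subgroups. -/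
theorem sign_sum (M : CoxeterMatrix B) (hm : ∀ i j, M i j ≠ 0)
    (hfin : ∀ U : Finset B, Finite (res M U).Group) :
    (Odd (Fintype.card B) → ∑ U : Finset B, (-1 / 2 : ℝ) ^ (Fintype.card B - U.card) /
      (Nat.card (res M U).Group : ℝ) = 0) ∧
    ∀ k, Fintype.card B = 2 * k → 0 ≤ (-1 : ℝ) ^ k *
      ∑ U : Finset B, (-1 / 2 : ℝ) ^ (Fintype.card B - U.card) / (Nat.card (res M U).Group : ℝ) := by
  classical
  haveI : Finite M.Group := by
    haveI := hfin Finset.univ
    exact Finite.of_equiv _ (univEquiv M).toEquiv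
  obtain ⟨ρ0, hρ0⟩ := geom_rep hm
  obtain ⟨n, hn⟩ := exists_vecs ρ0 hρ0
  have hone : ∀ i, ⟪n i, n i⟫ = 1 := fun i => by
    rw [hn.gram i i, M.diagonal i]
    simp
  have hne : ∀ i, n i ≠ 0 := fun i h0 => by
    have := hone i
    rw [h0, inner_zero_left] at this
    exact zero_ne_one this
  have hneg : ∀ i j, i ≠ j → ⟪n i, n j⟫ ≤ 0 := fun i j hij => by
    rw [hn.gram i j]
    have := cos_nonneg (M i j) (M.off_diagonal i j hij)
    linarith
  have hN : ∀ U : Finset B, (Nat.card (res M U).Group : ℝ) ≠ 0 := fun U => by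
    haveI := hfin U
    exact_mod_cast Nat.card_pos.ne'
  have hv : ∀ U : Finset B, (Nat.card (res M U).Group : ℝ) *
      ∫ x, {x : EuclideanSpace ℝ B | ∀ i ∈ U, 0 < ⟪n i, x⟫}.indicator gs x =
        ∫ x : EuclideanSpace ℝ B, gs x := by
    intro U
    haveI := hfin U
    have h1 := hn.restrict U
    obtain ⟨ρ, hρ⟩ := exists_rep h1
    have h2 := vol h1 hρ (chamber h1 hρ (tits h1 hρ (dih _)))
    have h3 : {x : EuclideanSpace ℝ B | ∀ i ∈ U, 0 < ⟪n i, x⟫} =
        {x : EuclideanSpace ℝ B | ∀ i : U, 0 < ⟪n i, x⟫} := by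
      ext x
      exact ⟨fun h i => h i.1 i.2, fun h i hi => h ⟨i, hi⟩⟩
    rw [h3]
    exact h2
  have hI : 0 < ∫ x : EuclideanSpace ℝ B, gs x := gs_pos
  have hex := expand hne (fun U => (Nat.card (res M U).Group : ℝ)) hN hv
  constructor
  · intro ho
    rw [odd_zero ho, mul_zero] at hex
    exact (mul_eq_zero.1 hex).resolve_right hI.ne'
  · intro k hk
    have h1 := signs (n := n) k fun ε hε => arctans lapl k
      (fun t ht => sines (gks B) hneg t ht k hk) ε hε
    have h2 : 0 ≤ ((-1 : ℝ) ^ k * ∑ U : Finset B, (-1 / 2 : ℝ) ^ (Fintype.card B - U.card) /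
        (Nat.card (res M U).Group : ℝ)) * ∫ x : EuclideanSpace ℝ B, gs x := by
      rw [mul_assoc, hex, mul_left_comm]
      exact mul_nonneg (by positivity) h1
    exact nonneg_of_mul_nonneg_left h2 hI

/-- the same for the subsets of a finite set -/
theorem sign_sum_finset {V : Type} [DecidableEq V] (M : CoxeterMatrix V) (σ : Finset V)
    (hm : ∀ i ∈ σ, ∀ j ∈ σ, M i j ≠ 0) (hfin : ∀ U ⊆ σ, Finite (res M U).Group) :
    (Odd σ.card → ∑ U ∈ σ.powerset, (-1 / 2 : ℚ) ^ (σ.card - U.card) *
      (1 / (Nat.card (res M U).Group : ℚ)) = 0) ∧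
    ∀ k, σ.card = 2 * k → 0 ≤ (-1 : ℚ) ^ k *
      ∑ U ∈ σ.powerset, (-1 / 2 : ℚ) ^ (σ.card - U.card) * (1 / (Nat.card (res M U).Group : ℚ)) := by
  classical
  have hsub : ∀ U : Finset σ, U.map (Function.Embedding.subtype (fun v => v ∈ σ)) ⊆ σ := by
    intro U v hv
    obtain ⟨z, -, e⟩ := Finset.mem_map.1 hv
    rw [← e]
    exact z.2
  have h1 := sign_sum (res M σ) (fun i j => hm i.1 i.2 j.1 j.2) (fun U => by
    haveI := hfin _ (hsub U)
    exact Finite.of_equiv _ (resEquiv M σ U).toEquiv)
  have hsum : ((∑ U ∈ σ.powerset, (-1 / 2 : ℚ) ^ (σ.card - U.card) *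
      (1 / (Nat.card (res M U).Group : ℚ)) : ℚ) : ℝ) =
      ∑ U : Finset σ, (-1 / 2 : ℝ) ^ (Fintype.card σ - U.card) /
        (Nat.card (res (res M σ) U).Group : ℝ) := by
    push_cast
    symm
    refine Finset.sum_bij (fun U _ => U.map (Function.Embedding.subtype (fun v => v ∈ σ))) ?_ ?_ ?_ ?_
    · intro U _
      exact Finset.mem_powerset.2 (hsub U)
    · intro U _ U' _ h
      exact Finset.map_injective _ h
    · intro U hU
      have hU' := Finset.mem_powerset.1 hU
      refine ⟨U.subtype (fun v => v ∈ σ), Finset.mem_univ _, ?_⟩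
      ext v
      rw [Finset.mem_map]
      constructor
      · rintro ⟨z, hz, e⟩
        rw [← e]
        exact Finset.mem_subtype.1 hz
      · intro hv
        exact ⟨⟨v, hU' hv⟩, Finset.mem_subtype.2 hv, rfl⟩
    · intro U _
      rw [Finset.card_map, Fintype.card_coe, Nat.card_congr (resEquiv M σ U).toEquiv]
      ring
  rw [Fintype.card_coe] at h1
  constructor
  · intro ho
    have h2 := h1.1 ho
    rw [Fintype.card_coe] at hsum
    rw [h2] at hsum
    exact_mod_cast hsum
  · intro k hk
    have h2 := h1.2 k hk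
    rw [Fintype.card_coe] at hsum
    rw [← hsum] at h2
    exact_mod_cast h2

end Pool.Agent.H128.Cox
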