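import Mathlib

set_option autoImplicit false
set_option linter.unusedSectionVars false

/-! Orders of finite Coxeter groups and Gaussian vectors: definitions. -/

namespace Pool.Agent.H128.Cox

open scoped RealInnerProductSpace

/-- the Coxeter matrix of a finite set of generators -/
def res {V : Type} (M : CoxeterMatrix V) (U : Finset V) : CoxeterMatrix U where
  M := M.M.submatrix (fun i => i.1) (fun i => i.1)
  isSymm := M.isSymm.submatrix _
  diagonal i := M.diagonal i.1
  off_diagonal i j h := M.off_diagonal i.1 j.1 (fun e => h (Subtype.ext e))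

@[simp] lemma res_apply {V : Type} (M : CoxeterMatrix V) (U : Finset V) (i j : U) :
    res M U i j = M i j := rfl

variable {B : Type} {E : Type} [NormedAddCommGroup E] [InnerProductSpace ℝ E]

/-- linearly independent unit vectors with the Gram matrix `- cos (π / m_ij)` -/
structure Vecs (M : CoxeterMatrix B) (n : B → E) : Prop where
  li : LinearIndependent ℝ n
  gram : ∀ i j, ⟪n i, n j⟫ = -Real.cos (Real.pi / M i j)

/-- the simple generators act as the reflections in the vectors `n i` -/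
def Rep (M : CoxeterMatrix B) (n : B → E) (ρ : M.Group →* (E ≃ₗᵢ[ℝ] E)) : Prop :=
  ∀ i x, ρ (M.simple i) x = x - (2 * ⟪n i, x⟫) • n i

/-- alternating products of two reflections applied to the first vector -/
noncomputable def alt (a b : E) : ℕ → E
  | 0 => a
  | k + 1 => if Even k then alt a b k - (2 * ⟪b, alt a b k⟫) • b
      else alt a b k - (2 * ⟪a, alt a b k⟫) • a

/-- roots of dihedral groups are positive or negative -/
def Dih (E : Type) [NormedAddCommGroup E] [InnerProductSpace ℝ E] : Prop :=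
  ∀ (a b : E) (m : ℕ), ‖a‖ = 1 → ‖b‖ = 1 → 2 ≤ m → ⟪a, b⟫ = -Real.cos (Real.pi / m) →
    ∀ k, k < m → ∃ c d : ℝ, 0 ≤ c ∧ 0 ≤ d ∧ alt a b k = c • a + d • b

/-- Tits: `w (n i)` is positive if `w s_i` is longer than `w` -/
def TitsP [Fintype B] (M : CoxeterMatrix B) (n : B → E) (ρ : M.Group →* (E ≃ₗᵢ[ℝ] E)) : Prop :=
  ∀ (w : M.Group) (i : B),
    M.toCoxeterSystem.length w < M.toCoxeterSystem.length (w * M.simple i) →
    ∃ c : B → ℝ, (∀ j, 0 ≤ c j) ∧ ρ w (n i) = ∑ j, c j • n j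

/-- each generic orbit meets the chamber exactly once -/
def Chamber (M : CoxeterMatrix B) (n : B → E) (ρ : M.Group →* (E ≃ₗᵢ[ℝ] E)) : Prop :=
  ∀ x, (∀ w i, ⟪n i, ρ w x⟫ ≠ 0) → ∃! w, ∀ i, 0 < ⟪n i, ρ w x⟫

/-- the Gaussian weight -/
noncomputable def gs (x : E) : ℝ := Real.exp (-‖x‖ ^ 2 / 2)

/-- Griffiths' inequality -/
def GKS (B : Type) [Fintype B] [DecidableEq B] : Prop :=
  ∀ c : B → B → ℝ, (∀ i j, 0 ≤ c i j) →
    0 ≤ ∑ ε : B → ℤˣ, (∏ j, ((ε j : ℤ) : ℝ)) *
      Real.exp (∑ j, ∑ k, c j k * (((ε j : ℤ) : ℝ) * ((ε k : ℤ) : ℝ)))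

/-- a Laplace transform -/
def Lapl : Prop := ∀ (y ε : ℝ), 0 < ε →
  ∫ t in Set.Ioi (0 : ℝ), Real.exp (-ε * t) * (Real.sin (t * y) / t) = Real.arctan (y / ε)

end Pool.Agent.H128.Cox
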