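import Pool.Agent.H128.Cox.Defs

set_option autoImplicit false
set_option linter.unusedSectionVars false

/-! Cox, X01: the reflections in the vectors `n i` give a representation of the Coxeter group. -/

namespace Pool.Agent.H337.CoxX01

open scoped RealInnerProductSpace
open Pool.Agent.H128.Cox

section refl
variable {E : Type} [NormedAddCommGroup E] [InnerProductSpace ℝ E]

/-- the reflection as a function -/
noncomputable def rf (a x : E) : E := x - (2 * ⟪a, x⟫) • a

lemma inner_self_one {a : E} (ha : ‖a‖ = 1) : ⟪a, a⟫ = (1 : ℝ) := by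
  rw [real_inner_self_eq_norm_sq, ha, one_pow]

lemma inner_rf {a x : E} (ha : ‖a‖ = 1) : ⟪a, rf a x⟫ = -⟪a, x⟫ := by
  unfold rf
  rw [inner_sub_right, inner_smul_right, inner_self_one ha]
  ring

lemma rf_rf {a x : E} (ha : ‖a‖ = 1) : rf a (rf a x) = x := by
  have h := inner_rf (x := x) ha
  show rf a x - (2 * ⟪a, rf a x⟫) • a = x
  rw [h]
  unfold rf
  rw [mul_neg, neg_smul, sub_neg_eq_add, sub_add_cancel]

lemma norm_rf {a x : E} (ha : ‖a‖ = 1) : ‖rf a x‖ = ‖x‖ := by
  have h : ‖rf a x‖ ^ 2 = ‖x‖ ^ 2 := by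
    rw [← real_inner_self_eq_norm_sq, ← real_inner_self_eq_norm_sq]
    unfold rf
    rw [inner_sub_left, inner_sub_right, inner_sub_right, inner_smul_left, inner_smul_right,
      inner_smul_left, inner_smul_right, inner_self_one ha, real_inner_comm a x]
    simp only [conj_trivial]
    ring
  exact (pow_left_inj₀ (norm_nonneg _) (norm_nonneg _) two_ne_zero).1 h

/-- the reflection as a linear map -/
noncomputable def rl (a : E) : E →ₗ[ℝ] E where
  toFun := rf a
  map_add' x y := by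
    unfold rf
    rw [inner_add_right, mul_add, add_smul]
    abel
  map_smul' c x := by
    unfold rf
    rw [inner_smul_right, RingHom.id_apply, smul_sub, smul_smul]
    congr 2
    ring

/-- the reflection as a linear isometry -/
noncomputable def ri (a : E) (ha : ‖a‖ = 1) : E ≃ₗᵢ[ℝ] E where
  toLinearEquiv := LinearEquiv.ofInvolutive (rl a) (fun _ => rf_rf ha)
  norm_map' _ := norm_rf ha

lemma ri_apply (a : E) (ha : ‖a‖ = 1) (x : E) : ri a ha x = rf a x := rfl

lemma ri_sq (a : E) (ha : ‖a‖ = 1) : ri a ha * ri a ha = 1 := by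
  ext x
  show rf a (rf a x) = x
  exact rf_rf ha

lemma pow_apply (g : E ≃ₗᵢ[ℝ] E) (k : ℕ) (x : E) : (g ^ k) x = g^[k] x := by
  induction k with
  | zero => rfl
  | succ k ih =>
    rw [Function.iterate_succ_apply', ← ih, pow_succ']
    rfl

lemma key {a b : E} (ha : ‖a‖ = 1) (hb : ‖b‖ = 1) {t : ℝ} (hs : Real.sin t ≠ 0)
    (hab : ⟪a, b⟫ = -Real.cos t) (x : E) (k : ℕ) :
    (∃ A B : ℝ, (fun y => rf a (rf b y))^[k] x = x + A • a + B • b) ∧
    ⟪a, (fun y => rf a (rf b y))^[k] x⟫ =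
      -(⟪a, x⟫ * Real.sin (2 * k * t - t) + ⟪b, x⟫ * Real.sin (2 * k * t)) / Real.sin t ∧
    ⟪b, (fun y => rf a (rf b y))^[k] x⟫ =
      (⟪a, x⟫ * Real.sin (2 * k * t) + ⟪b, x⟫ * Real.sin (2 * k * t + t)) / Real.sin t := by
  have hba : ⟪b, a⟫ = -Real.cos t := by rw [real_inner_comm]; exact hab
  induction k with
  | zero =>
    refine ⟨⟨0, 0, by simp⟩, ?_, ?_⟩
    · simp only [Function.iterate_zero, id, Nat.cast_zero, mul_zero, zero_mul, zero_sub,
        Real.sin_neg, Real.sin_zero, add_zero]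
      field_simp
    · simp only [Function.iterate_zero, id, Nat.cast_zero, mul_zero, zero_mul, zero_add,
        Real.sin_zero]
      field_simp
  | succ k ih =>
    obtain ⟨⟨A, B, hAB⟩, h1, h2⟩ := ih
    rw [Function.iterate_succ_apply']
    set y := (fun y => rf a (rf b y))^[k] x with hy
    have hbeta : ⟪a, rf b y⟫ = ⟪a, y⟫ + 2 * Real.cos t * ⟪b, y⟫ := by
      unfold rf
      rw [inner_sub_right, inner_smul_right, hab]
      ring
    have e1 : ⟪a, rf a (rf b y)⟫ = -⟪a, y⟫ - 2 * Real.cos t * ⟪b, y⟫ := by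
      rw [inner_rf ha, hbeta]; ring
    have e2 : ⟪b, rf a (rf b y)⟫ = 2 * Real.cos t * ⟪a, y⟫ +
        (4 * Real.cos t ^ 2 - 1) * ⟪b, y⟫ := by
      show ⟪b, rf b y - (2 * ⟪a, rf b y⟫) • a⟫ = _
      rw [inner_sub_right, inner_smul_right, hba, inner_rf hb, hbeta]
      ring
    have trig : ∀ z : ℝ, Real.sin (z + t) = 2 * Real.cos t * Real.sin z - Real.sin (z - t) := by
      intro z
      rw [Real.sin_add, Real.sin_sub]; ring
    have c1 : (2 * ((k + 1 : ℕ) : ℝ) * t) = (2 * k * t + t) + t := by push_cast; ring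
    have c2 : (2 * k * t + t) + t - t = 2 * k * t + t := by ring
    have t1 := trig (2 * k * t)
    have t2 := trig (2 * k * t + t)
    have t3 := trig (2 * k * t + t + t)
    rw [add_sub_cancel_right] at t2 t3
    refine ⟨?_, ?_, ?_⟩
    · refine ⟨A - 2 * ⟪a, rf b y⟫, B - 2 * ⟪b, y⟫, ?_⟩
      show rf b y - (2 * ⟪a, rf b y⟫) • a = _
      generalize ⟪a, rf b y⟫ = u
      unfold rf
      generalize ⟪b, y⟫ = w
      rw [hAB, sub_smul, sub_smul]
      abel
    · show ⟪a, rf a (rf b y)⟫ = _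
      rw [e1, c1, c2, h1, h2, t2, t1]
      field_simp
      ring
    · show ⟪b, rf a (rf b y)⟫ = _
      rw [e2, c1, h1, h2, t3, t2, t1]
      field_simp
      ring

lemma rot_pow {a b : E} (ha : ‖a‖ = 1) (hb : ‖b‖ = 1) {m : ℕ} (hm : 2 ≤ m)
    (hab : ⟪a, b⟫ = -Real.cos (Real.pi / m)) : (ri a ha * ri b hb) ^ m = 1 := by
  have hm0 : (0 : ℝ) < m := by
    have : 0 < m := by omega
    exact_mod_cast this
  have hm2 : (2 : ℝ) ≤ m := by exact_mod_cast hm
  set t := Real.pi / m with ht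
  have htpos : 0 < t := div_pos Real.pi_pos hm0
  have htlt : t < Real.pi := by
    rw [ht, div_lt_iff₀ hm0]
    nlinarith [Real.pi_pos]
  have hs : Real.sin t ≠ 0 := (Real.sin_pos_of_pos_of_lt_pi htpos htlt).ne'
  have hmt : 2 * (m : ℝ) * t = 2 * Real.pi := by
    rw [ht]; field_simp
  ext x
  rw [pow_apply]
  have hfun : (⇑(ri a ha * ri b hb) : E → E) = fun y => rf a (rf b y) := rfl
  rw [hfun]
  obtain ⟨⟨A, B, hAB⟩, h1, h2⟩ := key ha hb hs hab x m
  rw [hmt] at h1 h2
  have s1 : Real.sin (2 * Real.pi - t) = -Real.sin t := by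
    rw [Real.sin_two_pi_sub]
  have s2 : Real.sin (2 * Real.pi + t) = Real.sin t := by
    rw [add_comm, Real.sin_add_two_pi]
  rw [s1, Real.sin_two_pi] at h1
  rw [s2, Real.sin_two_pi] at h2
  have g1 : ⟪a, (fun y => rf a (rf b y))^[m] x⟫ = ⟪a, x⟫ := by
    rw [h1]; field_simp; ring
  have g2 : ⟪b, (fun y => rf a (rf b y))^[m] x⟫ = ⟪b, x⟫ := by
    rw [h2]; field_simp; ring
  set y := (fun y => rf a (rf b y))^[m] x with hy
  have hd : y - x = A • a + B • b := by rw [hAB]; abel
  have hz : ⟪y - x, y - x⟫ = (0 : ℝ) := by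
    nth_rewrite 1 [hd]
    rw [inner_add_left, inner_smul_left, inner_smul_left, inner_sub_right, inner_sub_right, g1, g2]
    simp
  have := inner_self_eq_zero.1 hz
  show y = x
  exact sub_eq_zero.1 this

end refl

variable {B : Type} [Fintype B] [DecidableEq B] {M : CoxeterMatrix B} {E : Type}
  [NormedAddCommGroup E] [InnerProductSpace ℝ E] [FiniteDimensional ℝ E] {n : B → E}

/-- X01. -/
theorem exists_rep (h : Vecs M n) : ∃ ρ : M.Group →* (E ≃ₗᵢ[ℝ] E), Rep M n ρ := by
  have hn : ∀ i, ‖n i‖ = 1 := by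
    intro i
    have h1 := h.gram i i
    rw [M.diagonal i, Nat.cast_one, div_one, Real.cos_pi, neg_neg,
      real_inner_self_eq_norm_sq] at h1
    have h2 : ‖n i‖ ^ 2 = 1 ^ 2 := by rw [h1, one_pow]
    exact (pow_left_inj₀ (norm_nonneg _) zero_le_one two_ne_zero).1 h2
  have hl : M.IsLiftable (fun i => ri (n i) (hn i)) := by
    intro i j
    by_cases hij : i = j
    · subst hij
      rw [ri_sq, one_pow]
    · have h1 : M i j ≠ 1 := M.off_diagonal i j hij
      by_cases h0 : M i j = 0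
      · rw [h0, pow_zero]
      · exact rot_pow (hn i) (hn j) (by omega) (h.gram i j)
  refine ⟨M.toCoxeterSystem.lift ⟨fun i => ri (n i) (hn i), hl⟩, ?_⟩
  intro i x
  have h1 := CoxeterSystem.lift_apply_simple M.toCoxeterSystem hl i
  rw [CoxeterMatrix.toCoxeterSystem_simple] at h1
  rw [h1]
  rfl

end Pool.Agent.H337.CoxX01
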