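import Pool.Agent.H128.Cox.Defs

set_option autoImplicit false
set_option linter.unusedSectionVars false

/-! Part X02 of helper128's project (MP_375bfa_co): roots of dihedral groups. -/

namespace Pool.Agent.H921.Cox

open scoped RealInnerProductSpace
open Pool.Agent.H128.Cox

variable {E : Type} [NormedAddCommGroup E] [InnerProductSpace ℝ E]

theorem sin_rec (t x : ℝ) : Real.sin (x + 2 * t) = 2 * Real.cos t * Real.sin (x + t) - Real.sin x := by
  have h1 : x + 2 * t = (x + t) + t := by ring
  have h2 : Real.sin x = Real.sin ((x + t) - t) := by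
    rw [add_sub_cancel_right]
  rw [h1, h2, Real.sin_add (x + t) t, Real.sin_sub (x + t) t]
  ring

theorem alt_eq {a b : E} {t : ℝ} (ha : ‖a‖ = 1) (hb : ‖b‖ = 1) (hab : ⟪a, b⟫ = -Real.cos t)
    (ht : Real.sin t ≠ 0) (k : ℕ) :
    (Even k → alt a b k = (Real.sin ((k + 1) * t) / Real.sin t) • a +
      (Real.sin (k * t) / Real.sin t) • b) ∧
    (¬ Even k → alt a b k = (Real.sin (k * t) / Real.sin t) • a +
      (Real.sin ((k + 1) * t) / Real.sin t) • b) := by
  have haa : ⟪a, a⟫ = 1 := by rw [real_inner_self_eq_norm_sq, ha, one_pow]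
  have hbb : ⟪b, b⟫ = 1 := by rw [real_inner_self_eq_norm_sq, hb, one_pow]
  have hba : ⟪b, a⟫ = -Real.cos t := by rw [real_inner_comm, hab]
  induction k with
  | zero =>
    constructor
    · intro _
      show a = _
      rw [Nat.cast_zero, zero_add, one_mul, zero_mul, Real.sin_zero, zero_div, zero_smul, add_zero,
        div_self ht, one_smul]
    · intro h
      exact absurd Even.zero h
  | succ k ih =>
    have hs := sin_rec t (k * t)
    have e1 : (k : ℝ) * t + t = (k + 1) * t := by ring
    have e2 : (k : ℝ) * t + 2 * t = ((k + 1 : ℕ) + 1) * t := by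
      push_cast
      ring
    have e3 : (((k + 1 : ℕ) : ℝ)) * t = (k + 1) * t := by
      push_cast
      ring
    rw [e1, e2] at hs
    rw [e3, hs]
    constructor
    · intro h
      have hk : ¬ Even k := fun h' => (Nat.even_add_one.1 h) h'
      have hd : alt a b (k + 1) = alt a b k - (2 * ⟪a, alt a b k⟫) • a := by
        show (if Even k then _ else _) = _
        rw [if_neg hk]
      rw [hd, ih.2 hk, inner_add_right, real_inner_smul_right, real_inner_smul_right, haa, hab]
      rw [add_sub_right_comm, ← sub_smul]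
      refine congrArg (fun z : ℝ => z • a + _) ?_
      field_simp
      ring
    · intro h
      have hk : Even k := by
        by_contra h'
        exact h (Nat.even_add_one.2 h')
      have hd : alt a b (k + 1) = alt a b k - (2 * ⟪b, alt a b k⟫) • b := by
        show (if Even k then _ else _) = _
        rw [if_pos hk]
      rw [hd, ih.1 hk, inner_add_right, real_inner_smul_right, real_inner_smul_right, hbb, hba]
      rw [add_sub_assoc, ← sub_smul]
      refine congrArg (fun z : ℝ => _ + z • b) ?_
      field_simp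
      ring

/-- X02. -/
theorem dih (E : Type) [NormedAddCommGroup E] [InnerProductSpace ℝ E] : Dih E := by
  intro a b m ha hb hm hab k hk
  have hmR : (2 : ℝ) ≤ m := by exact_mod_cast hm
  have hm0 : (0 : ℝ) < m := by linarith
  set t : ℝ := Real.pi / m with ht
  have htp : 0 < t := div_pos Real.pi_pos hm0
  have htl : t < Real.pi := by
    rw [ht, div_lt_iff₀ hm0]
    nlinarith [Real.pi_pos]
  have hst : 0 < Real.sin t := Real.sin_pos_of_pos_of_lt_pi htp htl
  have hk1 : ((k : ℝ) + 1) ≤ m := by exact_mod_cast hk
  have hk0 : (0 : ℝ) ≤ k := Nat.cast_nonneg k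
  have hmt : (m : ℝ) * t = Real.pi := by
    rw [ht]
    field_simp
  have p1 : 0 ≤ Real.sin ((k + 1) * t) :=
    Real.sin_nonneg_of_nonneg_of_le_pi (by positivity) (by
      rw [← hmt]
      exact mul_le_mul_of_nonneg_right hk1 htp.le)
  have p0 : 0 ≤ Real.sin (k * t) :=
    Real.sin_nonneg_of_nonneg_of_le_pi (by positivity) (by
      rw [← hmt]
      exact mul_le_mul_of_nonneg_right (by linarith) htp.le)
  have h := alt_eq ha hb hab hst.ne' k
  by_cases he : Even k
  · exact ⟨_, _, div_nonneg p1 hst.le, div_nonneg p0 hst.le, h.1 he⟩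
  · exact ⟨_, _, div_nonneg p0 hst.le, div_nonneg p1 hst.le, h.2 he⟩

end Pool.Agent.H921.Cox
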