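import Pool.Agent.H128.Cox.Defs

set_option autoImplicit false
set_option linter.unusedSectionVars false

/-! X03: roots are positive or negative (Tits). -/

namespace Pool.Agent.H895.Cox

open scoped RealInnerProductSpace
open Pool.Agent.H128.Cox CoxeterSystem

section rep
variable {B : Type} [Fintype B] [DecidableEq B] {M : CoxeterMatrix B} {E : Type}
  [NormedAddCommGroup E] [InnerProductSpace ℝ E] [FiniteDimensional ℝ E] {n : B → E}
  {ρ : M.Group →* (E ≃ₗᵢ[ℝ] E)}

/-- the vectors have norm one -/
theorem norm_one (h : Vecs M n) (i : B) : ‖n i‖ = 1 := by
  have h1 := h.gram i i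
  have e : (M i i : ℕ) = 1 := M.diagonal i
  rw [e, real_inner_self_eq_norm_sq] at h1
  have h2 : ‖n i‖ ^ 2 = 1 := by
    rw [h1]
    simp
  nlinarith [norm_nonneg (n i)]

/-- the entries are not zero -/
theorem M_ne_zero (h : Vecs M n) (i j : B) : M i j ≠ 0 := by
  intro e
  by_cases hij : i = j
  · subst hij
    have e1 : (M i i : ℕ) = 1 := M.diagonal i
    omega
  have h1 := h.gram i j
  rw [e] at h1
  have h2 : ⟪n i, n j⟫ = -1 := by
    rw [h1]
    simp
  have h3 : ‖n i + n j‖ ^ 2 = 0 := by
    rw [norm_add_sq_real, norm_one h, norm_one h, h2]
    norm_num
  have h4 : n i + n j = 0 := by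
    have := pow_eq_zero_iff (two_ne_zero) |>.1 h3
    exact norm_eq_zero.1 this
  have h5 := Fintype.linearIndependent_iff.1 h.li (Pi.single i 1 + Pi.single j 1) (by
    simp only [Pi.add_apply, add_smul, Finset.sum_add_distrib]
    rw [Finset.sum_eq_single i (fun b _ hb => by rw [Pi.single_eq_of_ne hb, zero_smul])
      (fun hb => absurd (Finset.mem_univ i) hb),
      Finset.sum_eq_single j (fun b _ hb => by rw [Pi.single_eq_of_ne hb, zero_smul])
      (fun hb => absurd (Finset.mem_univ j) hb), Pi.single_eq_same, Pi.single_eq_same,
      one_smul, one_smul, h4]) i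
  rw [Pi.add_apply, Pi.single_eq_same, Pi.single_eq_of_ne hij] at h5
  norm_num at h5

/-- the product of the alternating word moves the first vector as in `alt` -/
theorem rep_alt (hρ : Rep M n ρ) (i j : B) (k : ℕ) :
    ρ (M.toCoxeterSystem.wordProd (alternatingWord i j k)) (n i) = alt (n i) (n j) k := by
  induction k with
  | zero => simp [alternatingWord, alt]
  | succ k ih =>
    rw [alternatingWord_succ', wordProd_cons, map_mul, LinearIsometryEquiv.coe_mul,
      Function.comp_apply, ih]
    rw [CoxeterMatrix.toCoxeterSystem_simple, hρ, alt]
    split_ifs <;> rfl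

/-- X03. -/
theorem tits (h : Vecs M n) (hρ : Rep M n ρ) (hD : Dih E) : TitsP M n ρ := by
  have key : ∀ (L : ℕ) (w : M.Group) (i : B), M.toCoxeterSystem.length w = L →
      M.toCoxeterSystem.length w < M.toCoxeterSystem.length (w * M.simple i) →
      ∃ c : B → ℝ, (∀ j, 0 ≤ c j) ∧ ρ w (n i) = ∑ j, c j • n j := by
    intro L
    induction L using Nat.strong_induction_on with
    | _ L IH =>
      intro w i hL hw
      by_cases h1 : w = 1
      · refine ⟨Pi.single i 1, fun j => ?_, ?_⟩
        · by_cases hj : j = i
          · subst hj
            simp
          · rw [Pi.single_eq_of_ne hj]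
        · rw [Finset.sum_eq_single i (fun b _ hb => by rw [Pi.single_eq_of_ne hb, zero_smul])
            (fun hb => absurd (Finset.mem_univ i) hb), Pi.single_eq_same, one_smul, h1, map_one]
          rfl
      obtain ⟨j, hj⟩ := M.toCoxeterSystem.exists_rightDescent_of_ne_one h1
      have hj' : M.toCoxeterSystem.length (w * M.simple j) + 1 = M.toCoxeterSystem.length w := by
        have := (M.toCoxeterSystem.isRightDescent_iff).1 hj
        exact this
      have hij : i ≠ j := by
        intro e
        subst e
        omega
      have hm0 : M i j ≠ 0 := M_ne_zero h i j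
      have hm1 : M i j ≠ 1 := M.off_diagonal i j hij
      set m := M i j with hm
      let q : ℕ → M.Group := fun k => M.toCoxeterSystem.wordProd (alternatingWord i j k)
      have q0 : q 0 = 1 := by simp [q, alternatingWord]
      have qs : ∀ k, q (k + 1) = M.simple (if Even k then j else i) * q k := fun k => by
        show M.toCoxeterSystem.wordProd (alternatingWord i j (k + 1)) = _
        rw [alternatingWord_succ', wordProd_cons, CoxeterMatrix.toCoxeterSystem_simple]
      have ql : ∀ k, M.toCoxeterSystem.length (q k) ≤ k := fun k => by
        have := M.toCoxeterSystem.length_wordProd_le (alternatingWord i j k)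
        rwa [length_alternatingWord] at this
      let P : ℕ → Prop := fun k => ∃ v, w = v * q k ∧
        M.toCoxeterSystem.length w = M.toCoxeterSystem.length v + k
      have P0 : P 0 := ⟨w, by rw [q0, mul_one], rfl⟩
      have P1 : P 1 := by
        refine ⟨w * M.simple j, ?_, by omega⟩
        have e1 : q 1 = M.simple j := by
          have := qs 0
          rw [q0] at this
          simpa using this
        rw [e1]
        have := M.toCoxeterSystem.simple_mul_simple_cancel_right (w := w) j
        exact this.symm
      have Pm : ¬ P m := by
        rintro ⟨v, hv, hvl⟩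
        have e1 : q m = M.toCoxeterSystem.wordProd (alternatingWord j i m) := by
          have := M.toCoxeterSystem.wordProd_braidWord_eq i j
          rw [braidWord, braidWord, M.symmetric j i] at this
          exact this
        obtain ⟨m', hm'⟩ : ∃ m', m = m' + 1 := ⟨m - 1, by omega⟩
        have e2 : w * M.simple i = v * q m' := by
          rw [hv, e1, hm', alternatingWord, wordProd_concat, mul_assoc, mul_assoc]
          congr 1
          have := M.toCoxeterSystem.simple_mul_simple_cancel_right (w := q m') i
          rw [← mul_assoc]
          exact this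
        have e3 := M.toCoxeterSystem.length_mul_le v (q m')
        have e4 := ql m'
        rw [e2] at hw
        omega
      classical
      have hex : ∃ k, ¬ P k := ⟨m, Pm⟩
      obtain ⟨K, hK, hKmin⟩ : ∃ K, ¬ P K ∧ ∀ k, k < K → P k :=
        ⟨Nat.find hex, Nat.find_spec hex, fun k hk => not_not.1 (Nat.find_min hex hk)⟩
      have hKm : K ≤ m := by
        by_contra hc
        exact Pm (hKmin m (by omega))
      have hK2 : 2 ≤ K := by
        by_contra hc
        have : K = 0 ∨ K = 1 := by omega
        rcases this with e | e
        · exact hK (e ▸ P0)
        · exact hK (e ▸ P1)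
      obtain ⟨k, hk⟩ : ∃ k, K = k + 2 := ⟨K - 2, by omega⟩
      obtain ⟨v, hv, hvl⟩ := hKmin (k + 1) (by omega)
      -- the next letter is no descent
      have ha : M.toCoxeterSystem.length v <
          M.toCoxeterSystem.length (v * M.simple (if Even (k + 1) then j else i)) := by
        by_contra hc
        have h2 := M.toCoxeterSystem.length_mul_simple v (if Even (k + 1) then j else i)
        rw [CoxeterMatrix.toCoxeterSystem_simple] at h2
        have h3 : M.toCoxeterSystem.length (v * M.simple (if Even (k + 1) then j else i)) + 1 =
            M.toCoxeterSystem.length v := by omega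
        apply hK
        rw [hk]
        refine ⟨v * M.simple (if Even (k + 1) then j else i), ?_, by omega⟩
        rw [qs (k + 1), ← mul_assoc]
        have := M.toCoxeterSystem.simple_mul_simple_cancel_right (w := v)
          (if Even (k + 1) then j else i)
        rw [CoxeterMatrix.toCoxeterSystem_simple] at this
        rw [this]
        exact hv
      have hb : M.toCoxeterSystem.length v <
          M.toCoxeterSystem.length (v * M.simple (if Even k then j else i)) := by
        by_contra hc
        have h2 := M.toCoxeterSystem.length_mul_simple v (if Even k then j else i)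
        rw [CoxeterMatrix.toCoxeterSystem_simple] at h2
        have h3 : M.toCoxeterSystem.length (v * M.simple (if Even k then j else i)) + 1 =
            M.toCoxeterSystem.length v := by omega
        have h4 : w = (v * M.simple (if Even k then j else i)) * q k := by
          rw [mul_assoc, ← qs k]
          exact hv
        have h5 := M.toCoxeterSystem.length_mul_le (v * M.simple (if Even k then j else i)) (q k)
        rw [← h4] at h5
        have h6 := ql k
        omega
      have hvi : M.toCoxeterSystem.length v < M.toCoxeterSystem.length (v * M.simple i) := by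
        by_cases hev : Even k
        · have : ¬ Even (k + 1) := by
            rw [Nat.even_add_one]
            exact not_not.2 hev
          rwa [if_neg this] at ha
        · rwa [if_neg hev] at hb
      have hvj : M.toCoxeterSystem.length v < M.toCoxeterSystem.length (v * M.simple j) := by
        by_cases hev : Even k
        · rwa [if_pos hev] at hb
        · have : Even (k + 1) := by
            rw [Nat.even_add_one]
            exact hev
          rwa [if_pos this] at ha
      obtain ⟨c1, hc1, e1⟩ := IH (M.toCoxeterSystem.length v) (by omega) v i rfl hvi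
      obtain ⟨c2, hc2, e2⟩ := IH (M.toCoxeterSystem.length v) (by omega) v j rfl hvj
      obtain ⟨c, d, hc, hd, hcd⟩ := hD (n i) (n j) m (norm_one h i) (norm_one h j) (by omega)
        (h.gram i j) (k + 1) (by omega)
      refine ⟨fun l => c * c1 l + d * c2 l, fun l =>
        add_nonneg (mul_nonneg hc (hc1 l)) (mul_nonneg hd (hc2 l)), ?_⟩
      have e3 : ρ w (n i) = ρ v (alt (n i) (n j) (k + 1)) := by
        rw [← rep_alt hρ i j (k + 1)]
        conv_lhs => rw [hv, map_mul, LinearIsometryEquiv.coe_mul, Function.comp_apply]
      rw [e3, hcd, map_add, map_smul, map_smul, e1, e2, Finset.smul_sum, Finset.smul_sum,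
        ← Finset.sum_add_distrib]
      refine Finset.sum_congr rfl fun l _ => ?_
      rw [smul_smul, smul_smul, add_smul]
  exact fun w i hw => key _ w i rfl hw

end rep

end Pool.Agent.H895.Cox
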