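import Pool.Agent.H128.Cox.Defs

set_option autoImplicit false
set_option linter.unusedSectionVars false

/-! X04: each generic orbit meets the chamber exactly once. -/

namespace Pool.Agent.H389.CoxX04

open scoped RealInnerProductSpace
open MeasureTheory Pool.Agent.H128.Cox

variable {B : Type} [Fintype B] [DecidableEq B] {M : CoxeterMatrix B} {E : Type}
  [NormedAddCommGroup E] [InnerProductSpace ℝ E] [FiniteDimensional ℝ E] {n : B → E}
  {ρ : M.Group →* (E ≃ₗᵢ[ℝ] E)}

/-- a vector with prescribed inner products with linearly independent vectors -/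
theorem exists_vec (hli : LinearIndependent ℝ n) : ∃ x0 : E, ∀ i, ⟪n i, x0⟫ = 1 := by
  let b := Module.Basis.span hli
  let f : Submodule.span ℝ (Set.range n) →ₗ[ℝ] ℝ := b.constr ℝ (fun _ => (1 : ℝ))
  obtain ⟨F, hF⟩ := LinearMap.exists_extend f
  let F' : E →L[ℝ] ℝ := LinearMap.toContinuousLinearMap F
  refine ⟨(InnerProductSpace.toDual ℝ E).symm F', fun i => ?_⟩
  rw [real_inner_comm, InnerProductSpace.toDual_symm_apply]
  show F (n i) = 1
  have h1 : (b i : E) = n i := congrArg Subtype.val (Module.Basis.span_apply hli i)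
  have h2 : F (b i : E) = f (b i) := by
    rw [← hF]
    rfl
  rw [← h1, h2]
  exact b.constr_basis ℝ _ i

theorem norm_one (h : Vecs M n) (i : B) : ⟪n i, n i⟫ = (1 : ℝ) := by
  rw [h.gram i i, M.diagonal i]
  simp

theorem chamber [Finite M.Group] (h : Vecs M n) (hρ : Rep M n ρ) (hT : TitsP M n ρ) :
    Chamber M n ρ := by
  intro x hx
  obtain ⟨x0, hx0⟩ := exists_vec h.li
  obtain ⟨w, hw⟩ := Finite.exists_max (fun w : M.Group => ⟪ρ w x, x0⟫)
  refine ⟨w, ?_, ?_⟩
  · intro i
    have h1 : ρ (M.simple i * w) x = ρ w x - (2 * ⟪n i, ρ w x⟫) • n i := by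
      rw [map_mul]
      exact hρ i (ρ w x)
    have h2 := hw (M.simple i * w)
    rw [h1, inner_sub_left, real_inner_smul_left, hx0 i] at h2
    have h3 : 0 ≤ ⟪n i, ρ w x⟫ := by linarith
    exact lt_of_le_of_ne h3 (hx w i).symm
  · intro w2 hw2
    have hw1 : ∀ i, 0 < ⟪n i, ρ w x⟫ := by
      intro i
      have h1 : ρ (M.simple i * w) x = ρ w x - (2 * ⟪n i, ρ w x⟫) • n i := by
        rw [map_mul]
        exact hρ i (ρ w x)
      have h2 := hw (M.simple i * w)
      rw [h1, inner_sub_left, real_inner_smul_left, hx0 i] at h2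
      have h3 : 0 ≤ ⟪n i, ρ w x⟫ := by linarith
      exact lt_of_le_of_ne h3 (hx w i).symm
    by_contra hne
    set u : M.Group := w2 * w⁻¹ with hu
    have hu1 : u ≠ 1 := by
      intro h1
      apply hne
      rw [hu, mul_inv_eq_one] at h1
      exact h1
    obtain ⟨i, hi⟩ := M.toCoxeterSystem.exists_rightDescent_of_ne_one hu1
    have hi' : M.toCoxeterSystem.length (u * M.simple i) < M.toCoxeterSystem.length u := hi
    have hss : M.simple i * M.simple i = 1 := M.toCoxeterSystem.simple_mul_simple_self i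
    have hvu : u * M.simple i * M.simple i = u := by
      rw [mul_assoc, hss, mul_one]
    obtain ⟨c, hc, hcs⟩ := hT (u * M.simple i) i (by rw [hvu]; exact hi')
    have h1 : ρ u (n i) = -ρ (u * M.simple i) (n i) := by
      have h2 : ρ (M.simple i) (n i) = -n i := by
        rw [hρ i (n i), norm_one h i]
        rw [mul_one, two_smul]
        abel
      have h3 : ρ (u * M.simple i) (n i) = ρ u (ρ (M.simple i) (n i)) := by
        rw [map_mul]
        rfl
      rw [h3, h2, map_neg, neg_neg]
    have h4 : ρ u (ρ w x) = ρ w2 x := by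
      have h5 : ρ u (ρ w x) = ρ (u * w) x := by
        rw [map_mul ρ u w]
        rfl
      rw [h5, hu, inv_mul_cancel_right]
    have h6 : ⟪n i, ρ w x⟫ = ⟪ρ u (n i), ρ u (ρ w x)⟫ := ((ρ u).inner_map_map _ _).symm
    rw [h4, h1, hcs, inner_neg_left, sum_inner] at h6
    have h7 : 0 ≤ ∑ j, ⟪c j • n j, ρ w2 x⟫ := by
      refine Finset.sum_nonneg fun j _ => ?_
      rw [real_inner_smul_left]
      exact mul_nonneg (hc j) (hw2 j).le
    have h8 := hw1 i
    linarith

end Pool.Agent.H389.CoxX04
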