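import Pool.Agent.H128.Cox.Defs

set_option autoImplicit false
set_option linter.unusedSectionVars false

/-! X05: the Gaussian measure of the chamber (helper233 for helper128). -/

namespace Pool.Agent.H233.Cox

open scoped RealInnerProductSpace
open MeasureTheory Pool.Agent.H128.Cox

variable {B : Type} [Fintype B] [DecidableEq B] {M : CoxeterMatrix B} {E : Type}
  [NormedAddCommGroup E] [InnerProductSpace ℝ E] [FiniteDimensional ℝ E] {n : B → E}
  {ρ : M.Group →* (E ≃ₗᵢ[ℝ] E)}

variable [MeasurableSpace E] [BorelSpace E]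

theorem gs_int : Integrable (gs : E → ℝ) := by
  have h1 := GaussianFourier.integrable_cexp_neg_mul_sq_norm_add (V := E) (b := (1 / 2 : ℂ))
    (by norm_num) 0 0
  have h2 := h1.norm
  refine h2.congr (Filter.Eventually.of_forall fun x => ?_)
  simp only [Complex.norm_exp, gs]
  congr 1
  have h3 : (-(1 / 2 : ℂ) * (‖x‖ : ℂ) ^ 2 + 0 * ((inner ℝ (0 : E) x : ℝ) : ℂ)) =
      ((-‖x‖ ^ 2 / 2 : ℝ) : ℂ) := by
    push_cast
    ring
  rw [h3, Complex.ofReal_re]

/-- X05. -/
theorem vol [Finite M.Group] (h : Vecs M n) (hρ : Rep M n ρ) (hC : Chamber M n ρ) :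
    (Nat.card M.Group : ℝ) * ∫ x, {x : E | ∀ i, 0 < ⟪n i, x⟫}.indicator gs x = ∫ x : E, gs x := by
  classical
  have : Fintype M.Group := Fintype.ofFinite _
  set C : Set E := {x : E | ∀ i, 0 < ⟪n i, x⟫} with hCdef
  have hCm : MeasurableSet C := by
    have h1 : C = ⋂ i, {x : E | 0 < ⟪n i, x⟫} := by
      ext x
      simp [hCdef]
    rw [h1]
    refine MeasurableSet.iInter fun i => ?_
    exact measurableSet_lt measurable_const (by fun_prop)
  have hgi : Integrable (gs : E → ℝ) := gs_int
  have hCi : Integrable (C.indicator gs) := hgi.indicator hCm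
  -- the integrals of the translates
  have hmp : ∀ w : M.Group, MeasurePreserving (ρ w) (volume : Measure E) volume := fun w =>
    (ρ w).measurePreserving
  have hfi : ∀ w : M.Group, Integrable (fun x => C.indicator gs (ρ w x)) := fun w =>
    (hmp w).integrable_comp_of_integrable hCi
  have hfe : ∀ w : M.Group, ∫ x, C.indicator gs (ρ w x) = ∫ x, C.indicator gs x := fun w =>
    (hmp w).integral_comp (ρ w).toHomeomorph.measurableEmbedding _
  -- almost every point is generic
  have hgen1 : ∀ i, ∀ᵐ y : E, ⟪n i, y⟫ ≠ 0 := by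
    intro i
    have hne : (ℝ ∙ n i)ᗮ ≠ ⊤ := by
      intro h1
      have h2 : n i ∈ (ℝ ∙ n i)ᗮ := by
        rw [h1]
        trivial
      rw [Submodule.mem_orthogonal_singleton_iff_inner_right] at h2
      exact h.li.ne_zero i (inner_self_eq_zero.1 h2)
    have h3 := Measure.addHaar_submodule (volume : Measure E) _ hne
    rw [ae_iff]
    refine measure_mono_null (fun y hy => ?_) h3
    simp only [not_not] at hy
    show y ∈ (ℝ ∙ n i)ᗮ
    rw [Submodule.mem_orthogonal_singleton_iff_inner_right]
    exact hy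
  have hgen : ∀ᵐ x : E, ∀ w i, ⟪n i, ρ w x⟫ ≠ 0 := by
    rw [ae_all_iff]
    intro w
    rw [ae_all_iff]
    intro i
    exact (hmp w).quasiMeasurePreserving.ae (hgen1 i)
  have hsum : ∀ᵐ x : E, ∑ w, C.indicator gs (ρ w x) = gs x := by
    filter_upwards [hgen] with x hx
    obtain ⟨w0, hw0, huniq⟩ := hC x hx
    rw [Finset.sum_eq_single w0]
    · rw [Set.indicator_of_mem (show ρ w0 x ∈ C from hw0)]
      unfold gs
      rw [LinearIsometryEquiv.norm_map]
    · intro w _ hw
      have h1 : ρ w x ∉ C := fun hm => hw (huniq w hm)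
      exact Set.indicator_of_notMem h1 _
    · intro h1
      exact absurd (Finset.mem_univ _) h1
  rw [← integral_congr_ae hsum, integral_finsetSum _ fun w _ => hfi w]
  simp only [hfe]
  rw [Finset.sum_const, Finset.card_univ, nsmul_eq_mul, Nat.card_eq_fintype_card]

end Pool.Agent.H233.Cox
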