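import Pool.Agent.H128.Cox.Defs

set_option autoImplicit false

/-! Griffiths' inequality for sums over signs. -/

namespace Pool.Agent.H16.Cox.X06

open Pool.Agent.H128.Cox

variable {B : Type} [Fintype B] [DecidableEq B]

/-- a monomial in the signs -/
noncomputable def mono (k : B → ℕ) (ε : B → ℤˣ) : ℝ := ∏ j, ((ε j : ℤ) : ℝ) ^ k j

/-- all moments are nonnegative -/
def P (f : (B → ℤˣ) → ℝ) : Prop := ∀ k : B → ℕ, 0 ≤ ∑ ε : B → ℤˣ, mono k ε * f ε

theorem mono_add (k l : B → ℕ) (ε : B → ℤˣ) : mono (k + l) ε = mono k ε * mono l ε := by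
  unfold mono
  rw [← Finset.prod_mul_distrib]
  exact Finset.prod_congr rfl fun j _ => by rw [Pi.add_apply, pow_add]

theorem mono_single (i : B) (ε : B → ℤˣ) : mono (Pi.single i 1) ε = ((ε i : ℤ) : ℝ) := by
  unfold mono
  rw [Finset.prod_eq_single i]
  · rw [Pi.single_eq_same, pow_one]
  · intro j _ hj
    rw [Pi.single_eq_of_ne hj, pow_zero]
  · intro h
    exact absurd (Finset.mem_univ i) h

theorem P_one : P (fun _ : B → ℤˣ => (1 : ℝ)) := by
  intro k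
  have h1 : ∑ ε : B → ℤˣ, mono k ε * 1 = ∏ j, ∑ e : ℤˣ, ((e : ℤ) : ℝ) ^ k j := by
    rw [Finset.prod_univ_sum, Fintype.piFinset_univ]
    exact Finset.sum_congr rfl fun ε _ => by rw [mul_one]; rfl
  rw [h1]
  refine Finset.prod_nonneg fun j _ => ?_
  have h2 : (Finset.univ : Finset ℤˣ) = {1, -1} := rfl
  rw [h2, Finset.sum_pair (by decide)]
  rcases Nat.even_or_odd (k j) with h | h
  · rw [show ((((1 : ℤˣ) : ℤ) : ℝ)) = 1 by norm_num, show ((((-1 : ℤˣ) : ℤ) : ℝ)) = -1 by norm_num,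
      one_pow, h.neg_one_pow]
    norm_num
  · rw [show ((((1 : ℤˣ) : ℤ) : ℝ)) = 1 by norm_num, show ((((-1 : ℤˣ) : ℤ) : ℝ)) = -1 by norm_num,
      one_pow, h.neg_one_pow]
    norm_num

theorem P_mul (f : (B → ℤˣ) → ℝ) (hf : P f) (a b : ℝ) (ha : 0 ≤ a) (hb : 0 ≤ b) (i j : B) :
    P (fun ε => (a + b * (((ε i : ℤ) : ℝ) * ((ε j : ℤ) : ℝ))) * f ε) := by
  intro k
  have h1 : ∑ ε : B → ℤˣ, mono k ε * ((a + b * (((ε i : ℤ) : ℝ) * ((ε j : ℤ) : ℝ))) * f ε) =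
      a * ∑ ε : B → ℤˣ, mono k ε * f ε +
      b * ∑ ε : B → ℤˣ, mono (k + (Pi.single i 1 + Pi.single j 1)) ε * f ε := by
    rw [Finset.mul_sum, Finset.mul_sum, ← Finset.sum_add_distrib]
    refine Finset.sum_congr rfl fun ε _ => ?_
    rw [mono_add, mono_add, mono_single, mono_single]
    ring
  rw [h1]
  exact add_nonneg (mul_nonneg ha (hf k)) (mul_nonneg hb (hf _))

theorem exp_sign (c : ℝ) (u v : ℤˣ) : Real.exp (c * (((u : ℤ) : ℝ) * ((v : ℤ) : ℝ))) =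
    Real.cosh c + Real.sinh c * (((u : ℤ) : ℝ) * ((v : ℤ) : ℝ)) := by
  have h1 : ((((1 : ℤˣ) : ℤ) : ℝ)) = 1 := by norm_num
  have h2 : ((((-1 : ℤˣ) : ℤ) : ℝ)) = -1 := by norm_num
  have h3 : Real.exp (-c) = Real.cosh c - Real.sinh c := (Real.cosh_sub_sinh c).symm
  have h4 : Real.exp c = Real.cosh c + Real.sinh c := (Real.cosh_add_sinh c).symm
  rcases Int.units_eq_one_or u with rfl | rfl <;> rcases Int.units_eq_one_or v with rfl | rfl <;>
    simp only [h1, h2, mul_one, mul_neg, neg_neg, neg_mul, one_mul, h3, h4] <;> ring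

theorem P_prod (c : B × B → ℝ) (hc : ∀ p, 0 ≤ c p) (S : Finset (B × B)) :
    P (fun ε : B → ℤˣ => ∏ p ∈ S, Real.exp (c p * (((ε p.1 : ℤ) : ℝ) * ((ε p.2 : ℤ) : ℝ)))) := by
  induction S using Finset.induction_on with
  | empty =>
    simp only [Finset.prod_empty]
    exact P_one
  | insert p S hp ih =>
    have h := P_mul _ ih (Real.cosh (c p)) (Real.sinh (c p)) (Real.cosh_pos _).le
      (Real.sinh_nonneg_iff.mpr (hc p)) p.1 p.2
    have h2 : (fun ε : B → ℤˣ =>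
        ∏ q ∈ insert p S, Real.exp (c q * (((ε q.1 : ℤ) : ℝ) * ((ε q.2 : ℤ) : ℝ)))) =
        fun ε => (Real.cosh (c p) + Real.sinh (c p) * (((ε p.1 : ℤ) : ℝ) * ((ε p.2 : ℤ) : ℝ))) *
          ∏ q ∈ S, Real.exp (c q * (((ε q.1 : ℤ) : ℝ) * ((ε q.2 : ℤ) : ℝ))) := by
      funext ε
      rw [Finset.prod_insert hp, exp_sign]
    rw [h2]
    exact h

theorem gks (B : Type) [Fintype B] [DecidableEq B] : GKS B := by
  intro c hc
  have h := P_prod (fun p : B × B => c p.1 p.2) (fun p => hc p.1 p.2) Finset.univ (fun _ => 1)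
  refine le_of_le_of_eq h (Finset.sum_congr rfl fun ε _ => ?_)
  congr 1
  · unfold mono
    simp only [pow_one]
  · show ∏ p : B × B, Real.exp (c p.1 p.2 * (((ε p.1 : ℤ) : ℝ) * ((ε p.2 : ℤ) : ℝ))) = _
    rw [← Real.exp_sum, ← Finset.univ_product_univ, Finset.sum_product]

end Pool.Agent.H16.Cox.X06
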