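import Pool.Agent.H128.Cox.Defs

set_option autoImplicit false
set_option linter.unusedSectionVars false

/-! Gaussian integral of a product of sines (X07). -/

namespace Pool.Agent.H286.Cox

open scoped RealInnerProductSpace
open MeasureTheory Pool.Agent.H128.Cox

section sign
variable {B : Type} [Fintype B] [DecidableEq B] {E : Type}
  [NormedAddCommGroup E] [InnerProductSpace ℝ E] [FiniteDimensional ℝ E] [MeasurableSpace E]
  [BorelSpace E] {n : B → E}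

theorem gauss_eq (u x : E) :
    ((gs x : ℝ) : ℂ) * Complex.exp (Complex.I * ((⟪u, x⟫ : ℝ) : ℂ)) =
      Complex.exp (-(1 / 2 : ℂ) * (‖x‖ : ℂ) ^ 2 + Complex.I * ((⟪u, x⟫ : ℝ) : ℂ)) := by
  unfold gs
  rw [Complex.exp_add]
  congr 1
  rw [Complex.ofReal_exp]
  congr 1
  push_cast
  ring

theorem half_pos' : 0 < (1 / 2 : ℂ).re := by
  norm_num

theorem gauss_int (u : E) :
    Integrable (fun x : E => ((gs x : ℝ) : ℂ) * Complex.exp (Complex.I * ((⟪u, x⟫ : ℝ) : ℂ))) := by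
  have h := GaussianFourier.integrable_cexp_neg_mul_sq_norm_add half_pos' Complex.I u
  refine h.congr (Filter.Eventually.of_forall fun x => ?_)
  exact (gauss_eq u x).symm

theorem gauss (u : E) :
    ∫ x : E, ((gs x : ℝ) : ℂ) * Complex.exp (Complex.I * ((⟪u, x⟫ : ℝ) : ℂ)) =
      ((∫ x : E, gs x : ℝ) : ℂ) * ((Real.exp (-‖u‖ ^ 2 / 2) : ℝ) : ℂ) := by
  have h1 : ∀ u : E, ∫ x : E, ((gs x : ℝ) : ℂ) * Complex.exp (Complex.I * ((⟪u, x⟫ : ℝ) : ℂ)) =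
      (Real.pi / (1 / 2 : ℂ)) ^ (Module.finrank ℝ E / 2 : ℂ) *
        ((Real.exp (-‖u‖ ^ 2 / 2) : ℝ) : ℂ) := by
    intro u
    have h := GaussianFourier.integral_cexp_neg_mul_sq_norm_add half_pos' Complex.I u
    have h2 : ∫ x : E, ((gs x : ℝ) : ℂ) * Complex.exp (Complex.I * ((⟪u, x⟫ : ℝ) : ℂ)) =
        ∫ x : E, Complex.exp (-(1 / 2 : ℂ) * (‖x‖ : ℂ) ^ 2 + Complex.I * ((⟪u, x⟫ : ℝ) : ℂ)) :=
      integral_congr_ae (Filter.Eventually.of_forall fun x => gauss_eq u x)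
    rw [h2, h, Complex.ofReal_exp]
    congr 2
    rw [Complex.I_sq]
    push_cast
    ring
  have h3 := h1 0
  have h4 : ∫ x : E, ((gs x : ℝ) : ℂ) * Complex.exp (Complex.I * ((⟪(0 : E), x⟫ : ℝ) : ℂ)) =
      ((∫ x : E, gs x : ℝ) : ℂ) := by
    rw [← integral_complex_ofReal]
    refine integral_congr_ae (Filter.Eventually.of_forall fun x => ?_)
    simp
  rw [h4, norm_zero] at h3
  rw [h1 u, h3]
  simp

theorem sin_eq (y : ℝ) : ((Real.sin y : ℝ) : ℂ) = (2 * Complex.I)⁻¹ *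
    ∑ u : ℤˣ, (((u : ℤ) : ℝ) : ℂ) * Complex.exp (Complex.I * (((((u : ℤ) : ℝ) * y) : ℝ) : ℂ)) := by
  have h1 : (Finset.univ : Finset ℤˣ) = {1, -1} := rfl
  rw [h1, Finset.sum_pair (by decide), Complex.ofReal_sin, Complex.sin]
  have h2 : (2 * Complex.I)⁻¹ = -Complex.I / 2 := by
    rw [mul_inv, Complex.inv_I]
    ring
  rw [h2]
  push_cast
  have h3 : Complex.I * (1 * (y : ℂ)) = (y : ℂ) * Complex.I := by ring
  have h4 : Complex.I * (-1 * (y : ℂ)) = -(y : ℂ) * Complex.I := by ring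
  rw [h3, h4]
  ring

theorem prod_sin (y : B → ℝ) (k : ℕ) (hk : Fintype.card B = 2 * k) :
    ((∏ j, Real.sin (y j) : ℝ) : ℂ) = ((-4 : ℂ) ^ k)⁻¹ * ∑ ε : B → ℤˣ,
      ((∏ j, ((ε j : ℤ) : ℝ) : ℝ) : ℂ) *
        Complex.exp (Complex.I * ((∑ j, ((ε j : ℤ) : ℝ) * y j : ℝ) : ℂ)) := by
  rw [Complex.ofReal_prod, Finset.prod_congr rfl fun j _ => sin_eq (y j), Finset.prod_mul_distrib,
    Finset.prod_const, Finset.card_univ, hk, pow_mul]
  have h1 : (2 * Complex.I)⁻¹ ^ 2 = (-4 : ℂ)⁻¹ := by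
    rw [inv_pow, mul_pow, Complex.I_sq]
    norm_num
  rw [h1, inv_pow]
  congr 1
  rw [Finset.prod_univ_sum, Fintype.piFinset_univ]
  refine Finset.sum_congr rfl fun ε _ => ?_
  rw [Finset.prod_mul_distrib, Complex.ofReal_prod, ← Complex.exp_sum]
  congr 2
  rw [Complex.ofReal_sum, Finset.mul_sum]

theorem sq_norm (t : B → ℝ) (ε : B → ℤˣ) :
    -‖∑ j, (((ε j : ℤ) : ℝ) * t j) • n j‖ ^ 2 / 2 = -(∑ j, t j ^ 2 * ‖n j‖ ^ 2) / 2 +
      ∑ j, ∑ l, (if j = l then 0 else -(t j * t l * ⟪n j, n l⟫) / 2) *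
        (((ε j : ℤ) : ℝ) * ((ε l : ℤ) : ℝ)) := by
  have h2 : ∀ j, ((ε j : ℤ) : ℝ) * ((ε j : ℤ) : ℝ) = 1 := by
    intro j
    rcases Int.units_eq_one_or (ε j) with h | h <;> rw [h] <;> norm_num
  have h1 : ‖∑ j, (((ε j : ℤ) : ℝ) * t j) • n j‖ ^ 2 = ∑ j, ∑ l,
      ((if j = l then t j ^ 2 * ‖n j‖ ^ 2 else 0) +
        (-2) * ((if j = l then 0 else -(t j * t l * ⟪n j, n l⟫) / 2) *
          (((ε j : ℤ) : ℝ) * ((ε l : ℤ) : ℝ)))) := by
    rw [← real_inner_self_eq_norm_sq, sum_inner]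
    refine Finset.sum_congr rfl fun j _ => ?_
    rw [inner_sum]
    refine Finset.sum_congr rfl fun l _ => ?_
    rw [real_inner_smul_left, real_inner_smul_right]
    by_cases hjl : j = l
    · subst hjl
      rw [if_pos rfl, if_pos rfl, real_inner_self_eq_norm_sq]
      linear_combination (t j ^ 2 * ‖n j‖ ^ 2) * h2 j
    · rw [if_neg hjl, if_neg hjl]
      ring
  have h3 : ∑ j, ∑ l, (if j = l then t j ^ 2 * ‖n j‖ ^ 2 else 0) = ∑ j, t j ^ 2 * ‖n j‖ ^ 2 := by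
    refine Finset.sum_congr rfl fun j _ => ?_
    rw [Finset.sum_ite_eq, if_pos (Finset.mem_univ j)]
  rw [h1]
  simp only [Finset.sum_add_distrib, ← Finset.mul_sum]
  rw [h3]
  ring

/-- X07. -/
theorem sines (hG : GKS B) (hn : ∀ i j, i ≠ j → ⟪n i, n j⟫ ≤ 0) (t : B → ℝ) (ht : ∀ j, 0 ≤ t j)
    (k : ℕ) (hk : Fintype.card B = 2 * k) :
    0 ≤ (-1 : ℝ) ^ k * ∫ x : E, gs x * ∏ j, Real.sin (t j * ⟪n j, x⟫) := by
  let c : B → B → ℝ := fun j l => if j = l then 0 else -(t j * t l * ⟪n j, n l⟫) / 2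
  have hc : ∀ i j, 0 ≤ c i j := by
    intro i j
    by_cases hij : i = j
    · simp only [c, if_pos hij, le_refl]
    · simp only [c, if_neg hij]
      have h1 := mul_nonneg (ht i) (ht j)
      have h2 : t i * t j * ⟪n i, n j⟫ ≤ 0 := mul_nonpos_of_nonneg_of_nonpos h1 (hn i j hij)
      linarith
  have hS := hG c hc
  set S : ℝ := ∑ ε : B → ℤˣ, (∏ j, ((ε j : ℤ) : ℝ)) *
      Real.exp (∑ j, ∑ k, c j k * (((ε j : ℤ) : ℝ) * ((ε k : ℤ) : ℝ))) with hSdef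
  have hC : 0 ≤ ∫ x : E, gs x := integral_nonneg fun x => (Real.exp_pos _).le
  set C : ℝ := ∫ x : E, gs x with hCdef
  set D : ℝ := -(∑ j, t j ^ 2 * ‖n j‖ ^ 2) / 2 with hD
  -- the integral
  have h1 : (((∫ x : E, gs x * ∏ j, Real.sin (t j * ⟪n j, x⟫) : ℝ)) : ℂ) =
      (((-4 : ℝ) ^ k)⁻¹ * (C * (Real.exp D * S)) : ℝ) := by
    rw [← integral_complex_ofReal]
    have h2 : ∀ x : E, ((gs x * ∏ j, Real.sin (t j * ⟪n j, x⟫) : ℝ) : ℂ) =
        ∑ ε : B → ℤˣ, ((-4 : ℂ) ^ k)⁻¹ * ((∏ j, ((ε j : ℤ) : ℝ) : ℝ) : ℂ) *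
          (((gs x : ℝ) : ℂ) * Complex.exp (Complex.I *
            ((⟪∑ j, (((ε j : ℤ) : ℝ) * t j) • n j, x⟫ : ℝ) : ℂ))) := by
      intro x
      rw [Complex.ofReal_mul, prod_sin _ k hk, Finset.mul_sum, Finset.mul_sum]
      refine Finset.sum_congr rfl fun ε _ => ?_
      have h3 : ∑ j, ((ε j : ℤ) : ℝ) * (t j * ⟪n j, x⟫) =
          ⟪∑ j, (((ε j : ℤ) : ℝ) * t j) • n j, x⟫ := by
        rw [sum_inner]
        refine Finset.sum_congr rfl fun j _ => ?_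
        rw [real_inner_smul_left]
        ring
      rw [h3]
      ring
    rw [integral_congr_ae (Filter.Eventually.of_forall h2), integral_finsetSum _ fun ε _ =>
      (gauss_int _).const_mul _]
    rw [Finset.sum_congr rfl fun ε _ => by rw [integral_const_mul, gauss, sq_norm, Real.exp_add]]
    rw [hSdef]
    push_cast
    rw [Finset.mul_sum, Finset.mul_sum, Finset.mul_sum]
    refine Finset.sum_congr rfl fun ε _ => ?_
    simp only [c, hCdef, hD]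
    push_cast
    ring
  have h4 : ∫ x : E, gs x * ∏ j, Real.sin (t j * ⟪n j, x⟫) =
      ((-4 : ℝ) ^ k)⁻¹ * (C * (Real.exp D * S)) := by exact_mod_cast h1
  rw [h4, ← mul_assoc]
  have h5 : (-1 : ℝ) ^ k * ((-4 : ℝ) ^ k)⁻¹ = ((4 : ℝ) ^ k)⁻¹ := by
    have h6 : (-4 : ℝ) ^ k = (-1) ^ k * 4 ^ k := by rw [← mul_pow]; norm_num
    have h7 : ((-1 : ℝ) ^ k) ≠ 0 := pow_ne_zero _ (by norm_num)
    rw [h6, mul_inv, ← mul_assoc, mul_inv_cancel₀ h7, one_mul]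
  rw [h5]
  positivity

end sign

end Pool.Agent.H286.Cox
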