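import Pool.Agent.H128.Cox.Defs

set_option autoImplicit false

/-! X08: a Laplace transform (by helper806). -/

namespace Pool.Agent.H806.Cox

open MeasureTheory Pool.Agent.H128.Cox Set Filter Topology

lemma cos_int {ε : ℝ} (hε : 0 < ε) (y : ℝ) :
    ∫ t in Ioi (0 : ℝ), Real.exp (-ε * t) * Real.cos (t * y) = ε / (ε ^ 2 + y ^ 2) := by
  have ha : ((-ε : ℝ) + y * Complex.I : ℂ).re < 0 := by
    simp [hε]
  have h1 := integral_exp_mul_complex_Ioi ha 0
  have h2 := congrArg Complex.re h1
  rw [← RCLike.re_to_complex, ← integral_re (integrableOn_exp_mul_complex_Ioi ha 0)] at h2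
  have h3 : ∀ t : ℝ, RCLike.re (Complex.exp (((-ε : ℝ) + y * Complex.I : ℂ) * t)) =
      Real.exp (-ε * t) * Real.cos (t * y) := by
    intro t
    rw [RCLike.re_to_complex, Complex.exp_re]
    congr 2
    · simp
    · simp [mul_comm]
  simp only [h3] at h2
  rw [h2]
  rw [Complex.ofReal_zero, mul_zero, Complex.exp_zero, Complex.div_re]
  have h4 : Complex.normSq ((-ε : ℝ) + y * Complex.I : ℂ) = ε ^ 2 + y ^ 2 := by
    rw [Complex.normSq_add_mul_I]
    ring
  rw [h4]
  simp

lemma bd_sin (ε t y : ℝ) (ht : 0 < t) :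
    ‖Real.exp (-ε * t) * (Real.sin (t * y) / t)‖ ≤ |y| * Real.exp (-ε * t) := by
  rw [norm_mul, Real.norm_eq_abs, Real.norm_eq_abs, abs_of_pos (Real.exp_pos _), abs_div,
    abs_of_pos ht, mul_comm]
  refine mul_le_mul_of_nonneg_right ?_ (Real.exp_pos _).le
  rw [div_le_iff₀ ht]
  refine (Real.abs_sin_le_abs).trans ?_
  rw [abs_mul, abs_of_pos ht, mul_comm]

theorem lapl : Lapl := by
  intro y ε hε
  have hexp : IntegrableOn (fun t : ℝ => Real.exp (-ε * t)) (Ioi 0) :=
    exp_neg_integrableOn_Ioi 0 hε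
  have hmeas : ∀ z : ℝ, AEStronglyMeasurable (fun t : ℝ => Real.exp (-ε * t) *
      (Real.sin (t * z) / t)) (volume.restrict (Ioi 0)) := by
    intro z
    apply Measurable.aestronglyMeasurable
    fun_prop
  have hint : ∀ z : ℝ, IntegrableOn (fun t : ℝ => Real.exp (-ε * t) *
      (Real.sin (t * z) / t)) (Ioi 0) := by
    intro z
    refine Integrable.mono' (hexp.const_mul |z|) (hmeas z) ?_
    rw [ae_restrict_iff' measurableSet_Ioi]
    exact Eventually.of_forall fun t ht => bd_sin ε t z ht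
  have hd : ∀ z : ℝ, HasDerivAt (fun z : ℝ => ∫ t in Ioi (0 : ℝ), Real.exp (-ε * t) *
      (Real.sin (t * z) / t)) (ε / (ε ^ 2 + z ^ 2)) z := by
    intro z
    have h1 := hasDerivAt_integral_of_dominated_loc_of_deriv_le
      (μ := volume.restrict (Ioi (0 : ℝ))) (x₀ := z) (s := univ)
      (F := fun z t => Real.exp (-ε * t) * (Real.sin (t * z) / t))
      (F' := fun z t => Real.exp (-ε * t) * Real.cos (t * z))
      (bound := fun t => Real.exp (-ε * t)) univ_mem
      (Eventually.of_forall fun z => hmeas z) (hint z)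
      (by
        apply Measurable.aestronglyMeasurable
        fun_prop)
      (Eventually.of_forall fun t x _ => by
        rw [norm_mul, Real.norm_eq_abs, Real.norm_eq_abs, abs_of_pos (Real.exp_pos _)]
        exact mul_le_of_le_one_right (Real.exp_pos _).le (Real.abs_cos_le_one _))
      hexp
      (by
        rw [ae_restrict_iff' measurableSet_Ioi]
        refine Eventually.of_forall fun t ht x _ => ?_
        have ht0 : t ≠ 0 := ne_of_gt ht
        have h2 : HasDerivAt (fun x : ℝ => t * x) t x := by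
          simpa using (hasDerivAt_id x).const_mul t
        have h3 := ((h2.sin).div_const t).const_mul (Real.exp (-ε * t))
        rwa [mul_div_assoc, div_self ht0, mul_one] at h3)
    rw [← cos_int hε z]
    exact h1.2
  have hd2 : ∀ z : ℝ, HasDerivAt (fun z : ℝ => Real.arctan (z / ε)) (ε / (ε ^ 2 + z ^ 2)) z := by
    intro z
    have h1 := ((hasDerivAt_id z).div_const ε).arctan
    have h2 : 1 / (1 + (id z / ε) ^ 2) * (1 / ε) = ε / (ε ^ 2 + z ^ 2) := by
      have : ε ^ 2 + z ^ 2 ≠ 0 := by positivity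
      have h3 : (1 : ℝ) + (z / ε) ^ 2 ≠ 0 := by positivity
      rw [id]
      field_simp
    rw [h2] at h1
    exact h1
  have hd3 : ∀ z : ℝ, HasDerivAt (fun z : ℝ => (∫ t in Ioi (0 : ℝ), Real.exp (-ε * t) *
      (Real.sin (t * z) / t)) - Real.arctan (z / ε)) 0 z := by
    intro z
    have h := (hd z).sub (hd2 z)
    rwa [sub_self] at h
  have hc := is_const_of_deriv_eq_zero (fun z => (hd3 z).differentiableAt)
    (fun z => (hd3 z).deriv) y 0
  have h0 : (∫ t in Ioi (0 : ℝ), Real.exp (-ε * t) * (Real.sin (t * 0) / t)) = 0 := by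
    simp
  rw [h0, zero_div, Real.arctan_zero, sub_zero, sub_eq_zero] at hc
  exact hc

end Pool.Agent.H806.Cox
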