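import Mathlib
import Pool.Agent.H128.Cox.Defs

set_option autoImplicit false
set_option linter.unusedSectionVars false

namespace Pool.Agent.H505.CoxArctans

open scoped RealInnerProductSpace
open MeasureTheory Pool.Agent.H128.Cox

section gauss

variable {E : Type} [NormedAddCommGroup E] [InnerProductSpace ℝ E] [FiniteDimensional ℝ E]
  [MeasurableSpace E] [BorelSpace E]

lemma integrable_quarter : Integrable (fun x : E => Real.exp (-‖x‖ ^ 2 / 4)) := by
  have h := GaussianFourier.integrable_cexp_neg_mul_sq_norm_add (V := E) (b := (1 / 4 : ℂ))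
    (by norm_num) 0 0
  have h2 := h.re
  refine h2.congr (Filter.Eventually.of_forall fun x => ?_)
  change RCLike.re (Complex.exp (-(1 / 4 : ℂ) * (‖x‖ : ℂ) ^ 2 + 0 * ((⟪(0 : E), x⟫ : ℝ) : ℂ))) = _
  have e : -(1 / 4 : ℂ) * (‖x‖ : ℂ) ^ 2 + 0 * ((⟪(0 : E), x⟫ : ℝ) : ℂ) =
      ((-‖x‖ ^ 2 / 4 : ℝ) : ℂ) := by
    push_cast
    ring
  rw [e, ← Complex.ofReal_exp]
  exact Complex.ofReal_re _

lemma pow_gs_le (l : ℕ) (r : ℝ) (hr : 0 ≤ r) :
    r ^ l * Real.exp (-r ^ 2 / 2) ≤ (l.factorial * Real.exp 1) * Real.exp (-r ^ 2 / 4) := by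
  have h1 : r ^ l ≤ l.factorial * Real.exp r := by
    have h := Real.pow_div_factorial_le_exp r hr l
    rw [div_le_iff₀ (by positivity)] at h
    linarith
  calc r ^ l * Real.exp (-r ^ 2 / 2) ≤ (l.factorial * Real.exp r) * Real.exp (-r ^ 2 / 2) := by
        gcongr
    _ = l.factorial * Real.exp (r + -r ^ 2 / 2) := by
        rw [mul_assoc, ← Real.exp_add]
    _ ≤ l.factorial * Real.exp (1 + -r ^ 2 / 4) := by
        gcongr ?_ * Real.exp ?_
        nlinarith [sq_nonneg (r - 2)]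
    _ = (l.factorial * Real.exp 1) * Real.exp (-r ^ 2 / 4) := by
        rw [Real.exp_add, mul_assoc]

lemma integrable_norm_pow (l : ℕ) : Integrable (fun x : E => ‖x‖ ^ l * gs x) := by
  refine ((integrable_quarter (E := E)).const_mul (l.factorial * Real.exp 1)).mono' ?_ ?_
  · unfold gs
    exact Continuous.aestronglyMeasurable (by fun_prop)
  · refine Filter.Eventually.of_forall fun x => ?_
    rw [Real.norm_of_nonneg (by unfold gs; positivity)]
    exact pow_gs_le l ‖x‖ (norm_nonneg x)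

variable {B : Type} [Fintype B] [DecidableEq B] {n : B → E}

lemma integrable_prod_abs (n : B → E) : Integrable (fun x : E => gs x * ∏ j, |⟪n j, x⟫|) := by
  refine ((integrable_norm_pow (E := E) (Fintype.card B)).const_mul (∏ j, ‖n j‖)).mono' ?_ ?_
  · unfold gs
    exact Continuous.aestronglyMeasurable (by fun_prop)
  · refine Filter.Eventually.of_forall fun x => ?_
    have h0 : 0 ≤ gs x := by unfold gs; positivity
    have h1 : 0 ≤ ∏ j, |⟪n j, x⟫| := Finset.prod_nonneg fun j _ => abs_nonneg _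
    rw [Real.norm_of_nonneg (mul_nonneg h0 h1)]
    have h2 : ∏ j, |⟪n j, x⟫| ≤ ∏ j, (‖n j‖ * ‖x‖) :=
      Finset.prod_le_prod (fun j _ => abs_nonneg _) fun j _ => abs_real_inner_le_norm _ _
    rw [Finset.prod_mul_distrib, Finset.prod_const, Finset.card_univ] at h2
    calc gs x * ∏ j, |⟪n j, x⟫| ≤ gs x * ((∏ j, ‖n j‖) * ‖x‖ ^ Fintype.card B) := by gcongr
      _ = (∏ j, ‖n j‖) * (‖x‖ ^ Fintype.card B * gs x) := by ring

end gauss

lemma abs_sin_div_le (t y : ℝ) : |Real.sin (t * y) / t| ≤ |y| := by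
  rcases eq_or_ne t 0 with rfl | ht
  · simp
  · rw [abs_div, div_le_iff₀ (abs_pos.2 ht)]
    calc |Real.sin (t * y)| ≤ |t * y| := Real.abs_sin_le_abs
      _ = |y| * |t| := by rw [abs_mul, mul_comm]

variable {B : Type} [Fintype B] [DecidableEq B] {E : Type}
  [NormedAddCommGroup E] [InnerProductSpace ℝ E] [FiniteDimensional ℝ E] [MeasurableSpace E]
  [BorelSpace E] {n : B → E}

/-- the integrand -/
noncomputable def F (n : B → E) (ε : ℝ) (x : E) (t : B → ℝ) : ℝ :=
  gs x * ∏ j, (Real.exp (-ε * t j) * (Real.sin (t j * ⟪n j, x⟫) / t j))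

/-- the product of the half lines -/
noncomputable def half (B : Type) [Fintype B] : Measure (B → ℝ) :=
  Measure.pi (fun _ : B => (volume : Measure ℝ).restrict (Set.Ioi 0))

instance : SigmaFinite (half B) := by unfold half; infer_instance

lemma integrable_exp (ε : ℝ) (hε : 0 < ε) :
    Integrable (fun t : B → ℝ => ∏ j, Real.exp (-ε * t j)) (half B) := by
  unfold half
  refine Integrable.fintype_prod (f := fun (_ : B) (t : ℝ) => Real.exp (-ε * t)) fun j => ?_
  exact exp_neg_integrableOn_Ioi 0 hε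

lemma integrable_F (n : B → E) (ε : ℝ) (hε : 0 < ε) :
    Integrable (Function.uncurry (F n ε)) ((volume : Measure E).prod (half B)) := by
  refine ((integrable_prod_abs n).mul_prod (integrable_exp (B := B) ε hε)).mono' ?_ ?_
  · refine Measurable.aestronglyMeasurable ?_
    unfold F gs Function.uncurry
    have h1 : Measurable fun a : E × (B → ℝ) => Real.exp (-‖a.1‖ ^ 2 / 2) := by fun_prop
    refine h1.mul (Finset.measurable_prod _ fun j _ => ?_)
    have h2 : Measurable fun a : E × (B → ℝ) => Real.exp (-ε * a.2 j) := by fun_prop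
    have h3 : Measurable fun a : E × (B → ℝ) => Real.sin (a.2 j * ⟪n j, a.1⟫) := by
      refine Continuous.measurable ?_
      fun_prop
    have h4 : Measurable fun a : E × (B → ℝ) => a.2 j := by fun_prop
    exact h2.mul (h3.div h4)
  · refine Filter.Eventually.of_forall fun a => ?_
    have h0 : 0 ≤ gs a.1 := by unfold gs; positivity
    change ‖gs a.1 * ∏ j, (Real.exp (-ε * a.2 j) * (Real.sin (a.2 j * ⟪n j, a.1⟫) / a.2 j))‖ ≤
      (gs a.1 * ∏ j, |⟪n j, a.1⟫|) * ∏ j, Real.exp (-ε * a.2 j)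
    rw [norm_mul, Real.norm_of_nonneg h0, norm_prod, mul_assoc, ← Finset.prod_mul_distrib]
    refine mul_le_mul_of_nonneg_left ?_ h0
    refine Finset.prod_le_prod (fun j _ => norm_nonneg _) fun j _ => ?_
    rw [norm_mul, Real.norm_of_nonneg (Real.exp_pos _).le, mul_comm]
    exact mul_le_mul_of_nonneg_right (abs_sin_div_le _ _) (Real.exp_pos _).le

lemma integral_F_right (hL : Lapl) (n : B → E) (ε : ℝ) (hε : 0 < ε) (x : E) :
    ∫ t, F n ε x t ∂(half B) = gs x * ∏ j, Real.arctan (⟪n j, x⟫ / ε) := by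
  unfold F half
  rw [integral_const_mul]
  rw [integral_fintype_prod_eq_prod
    (f := fun (j : B) (t : ℝ) => Real.exp (-ε * t) * (Real.sin (t * ⟪n j, x⟫) / t))]
  congr 1
  exact Finset.prod_congr rfl fun j _ => hL ⟪n j, x⟫ ε hε

lemma integral_F_left (n : B → E) (ε : ℝ) (t : B → ℝ) :
    ∫ x : E, F n ε x t = (∏ j, (Real.exp (-ε * t j) / t j)) *
      ∫ x : E, gs x * ∏ j, Real.sin (t j * ⟪n j, x⟫) := by
  rw [← integral_const_mul]
  congr 1
  funext x
  unfold F
  have : ∀ j, Real.exp (-ε * t j) * (Real.sin (t j * ⟪n j, x⟫) / t j) =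
      (Real.exp (-ε * t j) / t j) * Real.sin (t j * ⟪n j, x⟫) := fun j => by ring
  simp_rw [this]
  rw [Finset.prod_mul_distrib]
  ring

/-- X09. -/
theorem arctans (hL : Lapl) (k : ℕ)
    (hs : ∀ t : B → ℝ, (∀ j, 0 ≤ t j) →
      0 ≤ (-1 : ℝ) ^ k * ∫ x : E, gs x * ∏ j, Real.sin (t j * ⟪n j, x⟫)) (ε : ℝ) (hε : 0 < ε) :
    0 ≤ (-1 : ℝ) ^ k * ∫ x : E, gs x * ∏ j, Real.arctan (⟪n j, x⟫ / ε) := by
  have h1 : ∫ x : E, gs x * ∏ j, Real.arctan (⟪n j, x⟫ / ε) =
      ∫ t, (∫ x : E, F n ε x t) ∂(half B) := by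
    rw [← integral_integral_swap (integrable_F n ε hε)]
    congr 1
    funext x
    exact (integral_F_right hL n ε hε x).symm
  rw [h1, ← integral_const_mul]
  have h2 : half B = (Measure.pi (fun _ : B => (volume : Measure ℝ))).restrict
      (Set.pi Set.univ fun _ => Set.Ioi (0 : ℝ)) := by
    unfold half
    rw [Measure.restrict_pi_pi]
  rw [h2]
  refine setIntegral_nonneg (MeasurableSet.univ_pi fun _ => measurableSet_Ioi) fun t ht => ?_
  have ht' : ∀ j, 0 < t j := fun j => ht j (Set.mem_univ j)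
  rw [integral_F_left]
  have h3 := hs t fun j => (ht' j).le
  have h4 : 0 ≤ ∏ j, (Real.exp (-ε * t j) / t j) :=
    Finset.prod_nonneg fun j _ => div_nonneg (Real.exp_pos _).le (ht' j).le
  have h5 := mul_nonneg h4 h3
  calc (0 : ℝ) ≤ _ := h5
    _ = _ := by ring

end Pool.Agent.H505.CoxArctans
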