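import Pool.Agent.H128.Cox.Defs

set_option autoImplicit false
set_option linter.unusedSectionVars false

/-! X10, X11 -/

namespace Pool.Agent.H824.Cox

open scoped RealInnerProductSpace Topology
open MeasureTheory Pool.Agent.H128.Cox Filter

section sign
variable {B : Type} [Fintype B] [DecidableEq B] {E : Type}
  [NormedAddCommGroup E] [InnerProductSpace ℝ E] [FiniteDimensional ℝ E] [MeasurableSpace E]
  [BorelSpace E] {n : B → E}

/-- X11c. -/
theorem gs_pos : 0 < ∫ x : E, gs x := by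
  have h := GaussianFourier.integral_rexp_neg_mul_sq_norm (V := E) (b := 1 / 2) (by norm_num)
  have h1 : ∀ x : E, gs x = Real.exp (-(1 / 2) * ‖x‖ ^ 2) := by
    intro x
    unfold gs
    congr 1
    ring
  simp_rw [h1]
  rw [h]
  positivity

theorem gs_int : Integrable (fun x : E => gs x) := Integrable.of_integral_ne_zero gs_pos.ne'

theorem gs_nonneg (x : E) : 0 ≤ gs x := (Real.exp_pos _).le

theorem gs_meas : Measurable (fun x : E => gs x) := by
  unfold gs
  fun_prop

theorem sg_meas (j : B) :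
    Measurable (fun x : E => ((SignType.sign ⟪n j, x⟫ : SignType) : ℝ)) := by
  have h1 : Measurable (fun x : E => ⟪n j, x⟫) := by fun_prop
  have h2 : Measurable (fun y : ℝ => ((SignType.sign y : SignType) : ℝ)) := by
    have : (fun y : ℝ => ((SignType.sign y : SignType) : ℝ)) = fun y =>
        if 0 < y then 1 else if y < 0 then -1 else 0 := by
      funext y
      rcases lt_trichotomy y 0 with h | h | h
      · rw [if_neg (not_lt.2 h.le), if_pos h, sign_neg h]
        simp
      · subst h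
        simp
      · rw [if_pos h, sign_pos h]
        simp
    rw [this]
    exact Measurable.ite measurableSet_Ioi measurable_const
      (Measurable.ite measurableSet_Iio measurable_const measurable_const)
  exact h2.comp h1

/-- the limit of the arc tangents -/
theorem lim_arctan (y : ℝ) : Tendsto (fun N : ℕ => Real.arctan (y / (1 / ((N : ℝ) + 1)))) atTop
    (𝓝 (Real.pi / 2 * ((SignType.sign y : SignType) : ℝ))) := by
  have h0 : ∀ N : ℕ, y / (1 / ((N : ℝ) + 1)) = y * ((N : ℝ) + 1) := by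
    intro N
    rw [div_div_eq_mul_div, div_one]
  simp_rw [h0]
  have h1 : Tendsto (fun N : ℕ => (N : ℝ) + 1) atTop atTop :=
    tendsto_atTop_add_const_right _ _ tendsto_natCast_atTop_atTop
  rcases lt_trichotomy y 0 with h | h | h
  · rw [sign_neg h]
    have h2 := (Real.tendsto_arctan_atBot.mono_right nhdsWithin_le_nhds).comp
      (h1.const_mul_atTop_of_neg h)
    simpa [Function.comp_def] using h2
  · subst h
    simp
  · rw [sign_pos h]
    have h2 := (Real.tendsto_arctan_atTop.mono_right nhdsWithin_le_nhds).comp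
      (h1.const_mul_atTop h)
    simpa [Function.comp_def] using h2

theorem abs_arctan_le (y : ℝ) : |Real.arctan y| ≤ Real.pi / 2 := by
  rw [abs_le]
  exact ⟨(Real.neg_pi_div_two_lt_arctan y).le, (Real.arctan_lt_pi_div_two y).le⟩

/-- X10. -/
theorem signs (k : ℕ)
    (ha : ∀ ε : ℝ, 0 < ε → 0 ≤ (-1 : ℝ) ^ k * ∫ x : E, gs x * ∏ j, Real.arctan (⟪n j, x⟫ / ε)) :
    0 ≤ (-1 : ℝ) ^ k * ∫ x : E, gs x * ∏ j, ((SignType.sign ⟪n j, x⟫ : SignType) : ℝ) := by
  have h1 : Tendsto (fun N : ℕ => ∫ x : E, gs x * ∏ j, Real.arctan (⟪n j, x⟫ / (1 / ((N : ℝ) + 1))))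
      atTop (𝓝 (∫ x : E, gs x * ∏ j, (Real.pi / 2 * ((SignType.sign ⟪n j, x⟫ : SignType) : ℝ)))) := by
    refine tendsto_integral_of_dominated_convergence
      (fun x => gs x * (Real.pi / 2) ^ Fintype.card B) ?_ (gs_int.mul_const _) ?_ ?_
    · intro N
      refine Measurable.aestronglyMeasurable ?_
      refine gs_meas.mul (Finset.measurable_prod _ fun j _ => ?_)
      fun_prop
    · intro N
      refine Filter.Eventually.of_forall fun x => ?_
      rw [norm_mul, Real.norm_of_nonneg (gs_nonneg x)]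
      refine mul_le_mul_of_nonneg_left ?_ (gs_nonneg x)
      rw [norm_prod]
      calc ∏ j, ‖Real.arctan (⟪n j, x⟫ / (1 / ((N : ℝ) + 1)))‖
          ≤ ∏ _j : B, (Real.pi / 2) :=
            Finset.prod_le_prod (fun j _ => norm_nonneg _) fun j _ => abs_arctan_le _
        _ = (Real.pi / 2) ^ Fintype.card B := by
            rw [Finset.prod_const, Finset.card_univ]
    · refine Filter.Eventually.of_forall fun x => ?_
      exact (tendsto_finsetProd _ fun j _ => lim_arctan _).const_mul _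
  have h2 := (h1.const_mul ((-1 : ℝ) ^ k))
  have h3 : 0 ≤ (-1 : ℝ) ^ k *
      ∫ x : E, gs x * ∏ j, (Real.pi / 2 * ((SignType.sign ⟪n j, x⟫ : SignType) : ℝ)) :=
    ge_of_tendsto' h2 fun N => ha _ (by positivity)
  have h4 : ∀ x : E, gs x * ∏ j, (Real.pi / 2 * ((SignType.sign ⟪n j, x⟫ : SignType) : ℝ)) =
      (Real.pi / 2) ^ Fintype.card B *
        (gs x * ∏ j, ((SignType.sign ⟪n j, x⟫ : SignType) : ℝ)) := by
    intro x
    rw [Finset.prod_mul_distrib, Finset.prod_const, Finset.card_univ]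
    ring
  simp_rw [h4] at h3
  rw [integral_const_mul] at h3
  have h5 : 0 < (Real.pi / 2) ^ Fintype.card B := by positivity
  have h6 : (-1 : ℝ) ^ k * ((Real.pi / 2) ^ Fintype.card B *
      ∫ x : E, gs x * ∏ j, ((SignType.sign ⟪n j, x⟫ : SignType) : ℝ)) =
      (Real.pi / 2) ^ Fintype.card B * ((-1 : ℝ) ^ k *
      ∫ x : E, gs x * ∏ j, ((SignType.sign ⟪n j, x⟫ : SignType) : ℝ)) := by ring
  rw [h6] at h3
  exact nonneg_of_mul_nonneg_right h3 h5

/-- X11a. -/
theorem odd_zero (ho : Odd (Fintype.card B)) :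
    ∫ x : E, gs x * ∏ j, ((SignType.sign ⟪n j, x⟫ : SignType) : ℝ) = 0 := by
  have h1 := integral_neg_eq_self (μ := (volume : Measure E))
    (fun x : E => gs x * ∏ j, ((SignType.sign ⟪n j, x⟫ : SignType) : ℝ))
  have h2 : ∀ x : E, gs (-x) * ∏ j, ((SignType.sign ⟪n j, -x⟫ : SignType) : ℝ) =
      -(gs x * ∏ j, ((SignType.sign ⟪n j, x⟫ : SignType) : ℝ)) := by
    intro x
    have h3 : gs (-x) = gs x := by
      unfold gs
      rw [norm_neg]
    have h4 : ∀ j, ((SignType.sign ⟪n j, -x⟫ : SignType) : ℝ) =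
        (-1) * ((SignType.sign ⟪n j, x⟫ : SignType) : ℝ) := by
      intro j
      rw [inner_neg_right, Left.sign_neg, SignType.coe_neg]
      ring
    simp_rw [h4]
    rw [h3, Finset.prod_mul_distrib, Finset.prod_const, Finset.card_univ, ho.neg_one_pow]
    ring
  simp only [h2] at h1
  rw [integral_neg] at h1
  linarith

theorem ae_ne (hn : ∀ i, n i ≠ 0) : ∀ᵐ x : E, ∀ j, ⟪n j, x⟫ ≠ 0 := by
  rw [ae_all_iff]
  intro j
  have h1 : (ℝ ∙ n j)ᗮ ≠ ⊤ := by
    intro h
    have h2 : n j ∈ (ℝ ∙ n j)ᗮ := by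
      rw [h]
      trivial
    rw [Submodule.mem_orthogonal_singleton_iff_inner_right, inner_self_eq_zero] at h2
    exact hn j h2
  have h3 := Measure.addHaar_submodule (volume : Measure E) _ h1
  rw [ae_iff]
  have h4 : {x : E | ¬⟪n j, x⟫ ≠ 0} = (((ℝ ∙ n j)ᗮ : Submodule ℝ E) : Set E) := by
    ext x
    rw [Set.mem_ofPred_eq, not_not, SetLike.mem_coe,
      Submodule.mem_orthogonal_singleton_iff_inner_right]
  rw [h4]
  exact h3

theorem half_sign {y : ℝ} (hy : y ≠ 0) :
    (if 0 < y then (1 : ℝ) else 0) + -1 / 2 = 1 / 2 * ((SignType.sign y : SignType) : ℝ) := by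
  rcases lt_or_gt_of_ne hy with h | h
  · rw [if_neg (not_lt.2 h.le), sign_neg h]
    norm_num
  · rw [if_pos h, sign_pos h]
    norm_num

theorem prod_ite_all (U : Finset B) (x : E) :
    gs x * ∏ j ∈ U, (if 0 < ⟪n j, x⟫ then (1 : ℝ) else 0) =
      {x : E | ∀ i ∈ U, 0 < ⟪n i, x⟫}.indicator gs x := by
  by_cases h : ∀ i ∈ U, 0 < ⟪n i, x⟫
  · rw [Set.indicator_of_mem (show x ∈ {x : E | ∀ i ∈ U, 0 < ⟪n i, x⟫} from h),
      Finset.prod_congr rfl fun j hj => if_pos (h j hj),
      Finset.prod_const_one, mul_one]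
  · rw [Set.indicator_of_notMem (show x ∉ {x : E | ∀ i ∈ U, 0 < ⟪n i, x⟫} from h)]
    have h' := h
    push Not at h'
    obtain ⟨i, hi, hi2⟩ := h'
    rw [Finset.prod_eq_zero hi (if_neg (not_lt.2 hi2)), mul_zero]

theorem ind_int (U : Finset B) :
    Integrable (fun x : E => {x : E | ∀ i ∈ U, 0 < ⟪n i, x⟫}.indicator gs x) := by
  refine Integrable.indicator gs_int ?_
  have : {x : E | ∀ i ∈ U, 0 < ⟪n i, x⟫} = ⋂ i ∈ U, {x : E | 0 < ⟪n i, x⟫} := by
    ext x
    simp
  rw [this]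
  refine Finset.measurableSet_biInter _ fun i _ => ?_
  exact measurableSet_lt measurable_const (by fun_prop)

/-- X11b. -/
theorem expand (hn : ∀ i, n i ≠ 0) (N : Finset B → ℝ) (hN : ∀ U, N U ≠ 0)
    (hv : ∀ U : Finset B, N U * ∫ x, {x : E | ∀ i ∈ U, 0 < ⟪n i, x⟫}.indicator gs x = ∫ x : E, gs x) :
    (∑ U : Finset B, (-1 / 2 : ℝ) ^ (Fintype.card B - U.card) / N U) * ∫ x : E, gs x =
      (1 / 2) ^ Fintype.card B *
        ∫ x : E, gs x * ∏ j, ((SignType.sign ⟪n j, x⟫ : SignType) : ℝ) := by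
  have h1 : ∀ U : Finset B, (-1 / 2 : ℝ) ^ (Fintype.card B - U.card) / N U * ∫ x : E, gs x =
      ∫ x : E, (-1 / 2 : ℝ) ^ (Fintype.card B - U.card) *
        {x : E | ∀ i ∈ U, 0 < ⟪n i, x⟫}.indicator gs x := by
    intro U
    rw [integral_const_mul, ← hv U]
    have := hN U
    field_simp
  rw [Finset.sum_mul, Finset.sum_congr rfl fun U _ => h1 U,
    ← integral_finsetSum _ fun U _ => (ind_int U).const_mul _, ← integral_const_mul]
  refine integral_congr_ae ?_
  filter_upwards [ae_ne hn] with x hx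
  have h2 : ∏ j, ((if 0 < ⟪n j, x⟫ then (1 : ℝ) else 0) + -1 / 2) =
      (1 / 2) ^ Fintype.card B * ∏ j, ((SignType.sign ⟪n j, x⟫ : SignType) : ℝ) := by
    rw [Finset.prod_congr rfl fun j _ => half_sign (hx j), Finset.prod_mul_distrib,
      Finset.prod_const, Finset.card_univ]
  have h3 : (1 / 2 : ℝ) ^ Fintype.card B *
      (gs x * ∏ j, ((SignType.sign ⟪n j, x⟫ : SignType) : ℝ)) =
      gs x * ∏ j, ((if 0 < ⟪n j, x⟫ then (1 : ℝ) else 0) + -1 / 2) := by
    rw [h2]
    ring
  rw [h3, Finset.prod_add, Finset.powerset_univ, Finset.mul_sum]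
  refine Finset.sum_congr rfl fun U _ => ?_
  rw [← prod_ite_all, Finset.prod_const, Finset.card_univ_sdiff]
  ring

end sign

end Pool.Agent.H824.Cox
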