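import Pool.Agent.H128.Cox.Defs

set_option autoImplicit false
set_option linter.unusedSectionVars false

/-! The geometric representation of a Coxeter group. -/

namespace Pool.Agent.H767.Cox

open scoped RealInnerProductSpace
open MeasureTheory Pool.Agent.H128.Cox

section dihedral

variable {E : Type} [AddCommGroup E] [Module ℝ E]

/-- the relation of two reflections -/
theorem dih_pow (p q : E ≃ₗ[ℝ] E) (A C : E →ₗ[ℝ] ℝ) (a b : E) (t : ℝ)
    (hp : ∀ x, p x = x - (2 * A x) • a) (hq : ∀ x, q x = x - (2 * C x) • b)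
    (h1 : A a = 1) (h2 : A b = -Real.cos t) (h3 : C a = -Real.cos t) (h4 : C b = 1)
    (ht : Real.sin t ≠ 0) (m : ℕ) (hm : (m : ℝ) * t = Real.pi) : (p * q) ^ m = 1 := by
  set c := Real.cos t with hc
  have hP : ∀ x, (p * q) x = p (q x) := fun x => rfl
  have Pa : (p * q) a = (4 * c ^ 2 - 1) • a + (2 * c) • b := by
    rw [hP, hq, h3, hp, map_sub, map_smul, h1, h2, smul_eq_mul]
    module
  have Pb : (p * q) b = (-(2 * c)) • a + (-1 : ℝ) • b := by
    rw [hP, hq, h4, hp, map_sub, map_smul, h2, smul_eq_mul]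
    module
  have rec1 : ∀ u : ℝ, Real.sin (u + 2 * t) = 2 * c * Real.sin (u + t) - Real.sin u := by
    intro u
    have e1 : u + 2 * t = (u + t) + t := by ring
    have e2 : u = (u + t) - t := by ring
    rw [e1, Real.sin_add]
    conv_rhs => rw [show Real.sin u = Real.sin ((u + t) - t) by rw [← e2]]
    rw [Real.sin_sub]
    ring
  have ha : ∀ k : ℕ, Real.sin t • ((p * q) ^ k) a =
      Real.sin ((2 * k + 1) * t) • a + Real.sin (2 * k * t) • b := by
    intro k
    induction k with
    | zero => simp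
    | succ k ih =>
      rw [pow_succ', LinearEquiv.mul_apply, ← map_smul, ih, map_add, map_smul, map_smul, Pa, Pb]
      have e1 : Real.sin ((2 * (k + 1 : ℕ)) * t) =
          2 * c * Real.sin ((2 * k + 1) * t) - Real.sin (2 * k * t) := by
        have := rec1 (2 * k * t)
        rw [show 2 * (k : ℝ) * t + 2 * t = (2 * (k + 1 : ℕ)) * t by push_cast; ring,
          show 2 * (k : ℝ) * t + t = (2 * k + 1) * t by ring] at this
        exact this
      have e2 : Real.sin ((2 * (k + 1 : ℕ) + 1) * t) =
          2 * c * Real.sin ((2 * (k + 1 : ℕ)) * t) - Real.sin ((2 * k + 1) * t) := by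
        have := rec1 ((2 * k + 1) * t)
        rw [show (2 * (k : ℝ) + 1) * t + 2 * t = (2 * (k + 1 : ℕ) + 1) * t by push_cast; ring,
          show (2 * (k : ℝ) + 1) * t + t = (2 * (k + 1 : ℕ)) * t by push_cast; ring] at this
        exact this
      rw [e2, e1]
      module
  have hb : ∀ k : ℕ, Real.sin t • ((p * q) ^ k) b =
      (-Real.sin (2 * k * t)) • a + (-Real.sin ((2 * k - 1) * t)) • b := by
    intro k
    induction k with
    | zero => simp
    | succ k ih =>
      rw [pow_succ', LinearEquiv.mul_apply, ← map_smul, ih, map_add, map_smul, map_smul, Pa, Pb]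
      have e0 : Real.sin (2 * k * t) =
          2 * c * Real.sin ((2 * k - 1) * t) - Real.sin ((2 * k - 2) * t) := by
        have := rec1 ((2 * k - 2) * t)
        rw [show (2 * (k : ℝ) - 2) * t + 2 * t = 2 * k * t by ring,
          show (2 * (k : ℝ) - 2) * t + t = (2 * k - 1) * t by ring] at this
        exact this
      have e1 : Real.sin ((2 * (k + 1 : ℕ) - 1) * t) =
          2 * c * Real.sin (2 * k * t) - Real.sin ((2 * k - 1) * t) := by
        have := rec1 ((2 * k - 1) * t)
        rw [show (2 * (k : ℝ) - 1) * t + 2 * t = (2 * (k + 1 : ℕ) - 1) * t by push_cast; ring,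
          show (2 * (k : ℝ) - 1) * t + t = 2 * k * t by ring] at this
        exact this
      have e2 : Real.sin ((2 * (k + 1 : ℕ)) * t) =
          2 * c * Real.sin ((2 * (k + 1 : ℕ) - 1) * t) - Real.sin (2 * k * t) := by
        have := rec1 (2 * k * t)
        rw [show 2 * (k : ℝ) * t + 2 * t = (2 * (k + 1 : ℕ)) * t by push_cast; ring,
          show 2 * (k : ℝ) * t + t = (2 * (k + 1 : ℕ) - 1) * t by push_cast; ring] at this
        exact this
      rw [e2, e1]
      module
  have ha' : ((p * q) ^ m) a = a := by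
    have h := ha m
    rw [show (2 * (m : ℝ) + 1) * t = t + 2 * Real.pi by rw [← hm]; ring,
      show 2 * (m : ℝ) * t = 2 * Real.pi by rw [← hm]; ring, Real.sin_add_two_pi,
      Real.sin_two_pi, zero_smul, add_zero] at h
    exact smul_right_injective E ht h
  have hb' : ((p * q) ^ m) b = b := by
    have h := hb m
    rw [show (2 * (m : ℝ) - 1) * t = 2 * Real.pi - t by rw [← hm]; ring,
      show 2 * (m : ℝ) * t = 2 * Real.pi by rw [← hm]; ring, Real.sin_two_pi_sub,
      Real.sin_two_pi, neg_zero, zero_smul, zero_add, neg_neg] at h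
    exact smul_right_injective E ht h
  ext x
  have hs : Real.sin t ^ 2 = 1 - c ^ 2 := by
    rw [hc, Real.sin_sq]
  have hs0 : (1 - c ^ 2) ≠ 0 := by
    rw [← hs]
    exact pow_ne_zero 2 ht
  obtain ⟨α, hα⟩ : ∃ α : ℝ, α = (A x + c * C x) / (1 - c ^ 2) := ⟨_, rfl⟩
  obtain ⟨β, hβ⟩ : ∃ β : ℝ, β = (C x + c * A x) / (1 - c ^ 2) := ⟨_, rfl⟩
  have hA : α - c * β = A x := by
    rw [hα, hβ]
    field_simp
    ring
  have hC : β - c * α = C x := by
    rw [hα, hβ]
    field_simp
    ring
  obtain ⟨y, hy⟩ : ∃ y : E, y = x - α • a - β • b := ⟨_, rfl⟩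
  have hAy : A y = 0 := by
    rw [hy, map_sub, map_sub, map_smul, map_smul, h1, h2, smul_eq_mul, smul_eq_mul]
    linarith
  have hCy : C y = 0 := by
    rw [hy, map_sub, map_sub, map_smul, map_smul, h3, h4, smul_eq_mul, smul_eq_mul]
    linarith
  have hPy : (p * q) y = y := by
    rw [hP, hq, hCy, mul_zero, zero_smul, sub_zero, hp, hAy, mul_zero, zero_smul, sub_zero]
  have hyk : ∀ k : ℕ, ((p * q) ^ k) y = y := by
    intro k
    induction k with
    | zero => rfl
    | succ k ih => rw [pow_succ', LinearEquiv.mul_apply, ih, hPy]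
  have hx : x = y + α • a + β • b := by
    rw [hy]
    abel
  show ((p * q) ^ m) x = x
  conv_lhs => rw [hx]
  rw [map_add, map_add, map_smul, map_smul, ha', hb', hyk, ← hx]

end dihedral

section posdef
variable {B : Type} [Fintype B] [DecidableEq B] {M : CoxeterMatrix B}

/-- the functional `(K x)_i` -/
noncomputable def fn (M : CoxeterMatrix B) (i : B) : (B → ℝ) →ₗ[ℝ] ℝ where
  toFun x := ∑ j, -Real.cos (Real.pi / M i j) * x j
  map_add' x y := by
    rw [← Finset.sum_add_distrib]
    exact Finset.sum_congr rfl fun j _ => mul_add _ _ _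
  map_smul' r x := by
    rw [RingHom.id_apply, smul_eq_mul, Finset.mul_sum]
    exact Finset.sum_congr rfl fun j _ => by
      rw [Pi.smul_apply, smul_eq_mul]
      ring

theorem fn_apply (i : B) (x : B → ℝ) :
    fn M i x = ∑ j, -Real.cos (Real.pi / M i j) * x j := rfl

theorem fn_single (i k : B) : fn M i (Pi.single k 1) = -Real.cos (Real.pi / M i k) := by
  rw [fn_apply, Finset.sum_eq_single k]
  · rw [Pi.single_eq_same, mul_one]
  · intro j _ hj
    rw [Pi.single_eq_of_ne hj, mul_zero]
  · intro h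
    exact absurd (Finset.mem_univ k) h

theorem fn_self (i : B) : fn M i (Pi.single i 1) = 1 := by
  rw [fn_single, M.diagonal i, Nat.cast_one, div_one, Real.cos_pi, neg_neg]

/-- the reflection as a linear map -/
noncomputable def reflL (M : CoxeterMatrix B) (i : B) : (B → ℝ) →ₗ[ℝ] (B → ℝ) :=
  LinearMap.id - ((2 : ℝ) • fn M i).smulRight (Pi.single i (1 : ℝ))

theorem reflL_apply (i : B) (x : B → ℝ) :
    reflL M i x = x - (2 * fn M i x) • Pi.single i (1 : ℝ) := rfl

theorem reflL_invol (i : B) : Function.Involutive (reflL M i) := by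
  intro x
  rw [reflL_apply, reflL_apply, map_sub, map_smul, fn_self, smul_eq_mul]
  module

/-- the reflection -/
noncomputable def refl (M : CoxeterMatrix B) (i : B) : (B → ℝ) ≃ₗ[ℝ] (B → ℝ) :=
  LinearEquiv.ofInvolutive (reflL M i) (reflL_invol i)

theorem refl_apply (i : B) (x : B → ℝ) :
    refl M i x = x - (2 * fn M i x) • Pi.single i (1 : ℝ) := rfl

/-- X12a. -/
theorem geom_rep (hm : ∀ i j, M i j ≠ 0) :
    ∃ ρ : M.Group →* ((B → ℝ) ≃ₗ[ℝ] (B → ℝ)), ∀ i x, ρ (M.simple i) x =
      x - (2 * ∑ j, -Real.cos (Real.pi / M i j) * x j) • Pi.single i (1 : ℝ) := by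
  have hl : M.IsLiftable (refl M) := by
    intro i j
    by_cases hij : i = j
    · subst hij
      rw [M.diagonal i, pow_one]
      ext1 x
      exact reflL_invol i x
    · have h1 : M i j ≠ 1 := M.off_diagonal i j hij
      have h0 := hm i j
      have h2 : 2 ≤ M i j := by omega
      have h2' : (2 : ℝ) ≤ (M i j : ℝ) := by exact_mod_cast h2
      have hpos : (0 : ℝ) < (M i j : ℝ) := by linarith
      have hsin : Real.sin (Real.pi / M i j) ≠ 0 := by
        refine (Real.sin_pos_of_pos_of_lt_pi (div_pos Real.pi_pos hpos) ?_).ne'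
        rw [div_lt_iff₀ hpos]
        nlinarith [Real.pi_pos]
      refine dih_pow (refl M i) (refl M j) (fn M i) (fn M j) (Pi.single i 1) (Pi.single j 1)
        (Real.pi / M i j) (refl_apply i) (refl_apply j) (fn_self i) (fn_single i j) ?_
        (fn_self j) hsin (M i j) ?_
      · rw [fn_single, M.symmetric j i]
      · field_simp
  refine ⟨M.toCoxeterSystem.lift ⟨refl M, hl⟩, fun i x => ?_⟩
  have e := M.toCoxeterSystem.lift_apply_simple hl i
  rw [M.toCoxeterSystem_simple] at e
  rw [e]
  exact refl_apply i x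

end posdef

end Pool.Agent.H767.Cox
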