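import Pool.Agent.H128.Cox.Defs

set_option autoImplicit false
set_option linter.unusedSectionVars false

/-! Project Cox (helper128), task X12b (helper685): vectors with the Gram matrix of a finite
Coxeter group. -/

namespace Pool.Agent.H685.Cox

open scoped RealInnerProductSpace MatrixOrder
open Pool.Agent.H128.Cox

section posdef
variable {B : Type} [Fintype B] [DecidableEq B] {M : CoxeterMatrix B}

/-- the invariant form, as a linear form in the second variable -/
noncomputable def gf [Fintype M.Group] (ρ : M.Group →* ((B → ℝ) ≃ₗ[ℝ] (B → ℝ))) (x : B → ℝ) :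
    (B → ℝ) →ₗ[ℝ] ℝ where
  toFun y := ∑ w : M.Group, ∑ k, (ρ w x) k * (ρ w y) k
  map_add' y z := by
    simp only [map_add, Pi.add_apply, mul_add, Finset.sum_add_distrib]
  map_smul' c y := by
    simp only [map_smul, Pi.smul_apply, smul_eq_mul, RingHom.id_apply, Finset.mul_sum]
    refine Finset.sum_congr rfl fun w _ => Finset.sum_congr rfl fun k _ => ?_
    ring

theorem gf_apply [Fintype M.Group] (ρ : M.Group →* ((B → ℝ) ≃ₗ[ℝ] (B → ℝ))) (x y : B → ℝ) :
    gf ρ x y = ∑ w : M.Group, ∑ k, (ρ w x) k * (ρ w y) k := rfl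

theorem gf_symm [Fintype M.Group] (ρ : M.Group →* ((B → ℝ) ≃ₗ[ℝ] (B → ℝ))) (x y : B → ℝ) :
    gf ρ x y = gf ρ y x := by
  rw [gf_apply, gf_apply]
  exact Finset.sum_congr rfl fun w _ => Finset.sum_congr rfl fun k _ => mul_comm _ _

theorem gf_inv [Fintype M.Group] (ρ : M.Group →* ((B → ℝ) ≃ₗ[ℝ] (B → ℝ))) (u : M.Group)
    (x y : B → ℝ) : gf ρ (ρ u x) (ρ u y) = gf ρ x y := by
  rw [gf_apply, gf_apply]
  rw [← Equiv.sum_comp (Equiv.mulRight u) (fun w : M.Group => ∑ k, (ρ w x) k * (ρ w y) k)]
  refine Finset.sum_congr rfl fun w _ => Finset.sum_congr rfl fun k _ => ?_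
  rw [Equiv.coe_mulRight, map_mul]
  rfl

theorem gf_pos [Fintype M.Group] (ρ : M.Group →* ((B → ℝ) ≃ₗ[ℝ] (B → ℝ))) {x : B → ℝ}
    (hx : x ≠ 0) : 0 < gf ρ x x := by
  rw [gf_apply]
  obtain ⟨i, hi⟩ := Function.ne_iff.1 hx
  refine Finset.sum_pos' (fun w _ => Finset.sum_nonneg fun k _ => mul_self_nonneg _)
    ⟨1, Finset.mem_univ _, ?_⟩
  refine Finset.sum_pos' (fun k _ => mul_self_nonneg _) ⟨i, Finset.mem_univ _, ?_⟩
  rw [map_one]
  exact mul_self_pos.2 hi

/-- X12b. -/
theorem exists_vecs [Finite M.Group] (ρ : M.Group →* ((B → ℝ) ≃ₗ[ℝ] (B → ℝ)))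
    (hρ : ∀ i x, ρ (M.simple i) x =
      x - (2 * ∑ j, -Real.cos (Real.pi / M i j) * x j) • Pi.single i (1 : ℝ)) :
    ∃ n : B → EuclideanSpace ℝ B, Vecs M n := by
  have : Fintype M.Group := Fintype.ofFinite _
  set K : Matrix B B ℝ := Matrix.of fun i j => -Real.cos (Real.pi / M i j) with hK
  have hKa : ∀ i j, K i j = -Real.cos (Real.pi / M i j) := fun i j => rfl
  have hKs : ∀ i j, K i j = K j i := fun i j => by rw [hKa, hKa, M.symmetric]
  have hKd : ∀ i, K i i = 1 := fun i => by
    rw [hKa, M.diagonal, Nat.cast_one, div_one, Real.cos_pi, neg_neg]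
  set e : B → (B → ℝ) := fun i => Pi.single i (1 : ℝ) with he
  have he0 : ∀ i, e i ≠ 0 := fun i h => by
    have := congrFun h i
    simp [he] at this
  set D : B → ℝ := fun i => gf ρ (e i) (e i) with hD
  have hDpos : ∀ i, 0 < D i := fun i => gf_pos ρ (he0 i)
  have hsi : ∀ i, ρ (M.simple i) (e i) = -(e i) := by
    intro i
    rw [hρ]
    have h1 : ∑ j, -Real.cos (Real.pi / M i j) * (e i) j = 1 := by
      rw [Finset.sum_eq_single i]
      · simp only [he, Pi.single_eq_same, mul_one]
        exact hKd i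
      · intro j _ hj
        simp only [he, Pi.single_eq_of_ne hj, mul_zero]
      · intro h
        exact absurd (Finset.mem_univ i) h
    rw [h1, mul_one, two_smul]
    show e i - (e i + e i) = -(e i)
    abel
  have hg : ∀ x i, gf ρ x (e i) = (∑ j, K i j * x j) * D i := by
    intro x i
    have h1 := gf_inv ρ (M.simple i) x (e i)
    rw [hsi, map_neg, gf_symm, hρ] at h1
    have h2 : gf ρ (e i) (x - (2 * ∑ j, -Real.cos (Real.pi / M i j) * x j) • Pi.single i (1 : ℝ)) =
        gf ρ (e i) x - (2 * ∑ j, K i j * x j) * D i := by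
      rw [map_sub, map_smul, smul_eq_mul]
      rfl
    rw [h2, gf_symm ρ (e i) x] at h1
    linarith
  have hKD : ∀ i j, K i j * D i = K i j * D j := by
    intro i j
    have h1 := hg (e j) i
    have h2 := hg (e i) j
    have h3 : ∀ a b : B, ∑ l, K a l * (e b) l = K a b := by
      intro a b
      rw [Finset.sum_eq_single b]
      · simp only [he, Pi.single_eq_same, mul_one]
      · intro l _ hl
        simp only [he, Pi.single_eq_of_ne hl, mul_zero]
      · intro h
        exact absurd (Finset.mem_univ b) h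
    rw [h3] at h1 h2
    rw [← h1, gf_symm, h2, hKs]
  have hexp : ∀ x, gf ρ x x = ∑ i, x i * ((∑ j, K i j * x j) * D i) := by
    intro x
    have h1 : x = ∑ i, x i • e i := by
      ext j
      rw [Finset.sum_apply, Finset.sum_eq_single j]
      · simp only [he, Pi.smul_apply, Pi.single_eq_same, smul_eq_mul, mul_one]
      · intro l _ hl
        simp only [he, Pi.smul_apply, Pi.single_eq_of_ne hl.symm, smul_zero]
      · intro h
        exact absurd (Finset.mem_univ j) h
    have h2 : gf ρ x x = gf ρ x (∑ i, x i • e i) := by rw [← h1]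
    rw [h2, map_sum]
    refine Finset.sum_congr rfl fun i _ => ?_
    rw [map_smul, smul_eq_mul, hg]
  have hpd : ∀ z : B → ℝ, z ≠ 0 → 0 < ∑ i, z i * ∑ j, K i j * z j := by
    intro z hz
    set x : B → ℝ := fun i => z i / √(D i) with hx
    have hs : ∀ i, 0 < √(D i) := fun i => Real.sqrt_pos.2 (hDpos i)
    have hx0 : x ≠ 0 := by
      intro h
      apply hz
      funext i
      have h1 := congrFun h i
      simp only [hx, Pi.zero_apply] at h1
      rcases div_eq_zero_iff.1 h1 with h2 | h2
      · exact h2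
      · exact absurd h2 (hs i).ne'
    have h1 := gf_pos ρ hx0
    rw [hexp] at h1
    refine h1.trans_le (le_of_eq ?_)
    refine Finset.sum_congr rfl fun i _ => ?_
    rw [Finset.sum_mul, Finset.mul_sum, Finset.mul_sum]
    refine Finset.sum_congr rfl fun j _ => ?_
    have h2 : K i j * D i = K i j * (√(D i) * √(D j)) := by
      by_cases h0 : K i j = 0
      · rw [h0, zero_mul, zero_mul]
      · have h3 : D i = D j := mul_left_cancel₀ h0 (hKD i j)
        rw [h3, Real.mul_self_sqrt (hDpos j).le]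
    have h3 := (hs i).ne'
    have h4 := (hs j).ne'
    simp only [hx]
    have h5 : z i / √(D i) * (K i j * (z j / √(D j)) * D i) =
        z i / √(D i) * (z j / √(D j)) * (K i j * D i) := by ring
    rw [h5, h2]
    field_simp
  have hK1 : K.PosDef := by
    refine Matrix.PosDef.of_dotProduct_mulVec_pos ?_ ?_
    · ext i j
      rw [Matrix.conjTranspose_apply, star_trivial, hKs]
    · intro z hz
      refine (hpd z hz).trans_le (le_of_eq ?_)
      simp only [dotProduct, Matrix.mulVec, star_trivial]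
  obtain ⟨A, hA⟩ := CStarAlgebra.nonneg_iff_eq_star_mul_self.mp hK1.posSemidef.nonneg
  have hgram : ∀ i j, ⟪(WithLp.toLp 2 (fun k => A k i) : EuclideanSpace ℝ B),
      (WithLp.toLp 2 (fun k => A k j) : EuclideanSpace ℝ B)⟫ = K i j := by
    intro i j
    rw [hA, Matrix.mul_apply, PiLp.inner_apply]
    refine Finset.sum_congr rfl fun k _ => ?_
    rw [Matrix.star_apply, star_trivial]
    simp [mul_comm]
  refine ⟨fun i => WithLp.toLp 2 (fun k => A k i), ⟨?_, fun i j => hgram i j⟩⟩
  apply Matrix.linearIndependent_of_posDef_gram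
  have h1 : Matrix.gram ℝ (fun i => (WithLp.toLp 2 (fun k => A k i) : EuclideanSpace ℝ B)) = K := by
    ext i j
    rw [Matrix.gram_apply]
    exact hgram i j
  rw [h1]
  exact hK1

end posdef

end Pool.Agent.H685.Cox
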