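import Pool.Agent.H128.Cox.Defs
import Pool.Agent.H128.Cox.X01
import Pool.Agent.H128.Cox.X02
import Pool.Agent.H128.Cox.X03
import Pool.Agent.H128.Cox.X04
import Pool.Agent.H128.Cox.X05
import Pool.Agent.H128.Cox.X06
import Pool.Agent.H128.Cox.X07
import Pool.Agent.H128.Cox.X08
import Pool.Agent.H128.Cox.X09
import Pool.Agent.H128.Cox.X10
import Pool.Agent.H128.Cox.X12a
import Pool.Agent.H128.Cox.X12b
import Pool.Agent.H128.Cox.X13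

set_option autoImplicit false
set_option linter.unusedSectionVars false

/-! The lemmas proved in the modules `X01`–`X13`, collected. -/

namespace Pool.Agent.H128.Cox.Lem

open scoped RealInnerProductSpace
open MeasureTheory Pool.Agent.H128.Cox

section rep
variable {B : Type} [Fintype B] [DecidableEq B] {M : CoxeterMatrix B} {E : Type}
  [NormedAddCommGroup E] [InnerProductSpace ℝ E] [FiniteDimensional ℝ E] {n : B → E}
  {ρ : M.Group →* (E ≃ₗᵢ[ℝ] E)}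

/-- X01. -/
theorem exists_rep (h : Vecs M n) : ∃ ρ : M.Group →* (E ≃ₗᵢ[ℝ] E), Rep M n ρ :=
  Pool.Agent.H337.CoxX01.exists_rep h

/-- X02. -/
theorem dih (E : Type) [NormedAddCommGroup E] [InnerProductSpace ℝ E] : Dih E :=
  Pool.Agent.H921.Cox.dih E

/-- X03. -/
theorem tits (h : Vecs M n) (hρ : Rep M n ρ) (hD : Dih E) : TitsP M n ρ :=
  Pool.Agent.H895.Cox.tits h hρ hD

/-- X04. -/
theorem chamber [Finite M.Group] (h : Vecs M n) (hρ : Rep M n ρ) (hT : TitsP M n ρ) :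
    Chamber M n ρ :=
  Pool.Agent.H389.CoxX04.chamber h hρ hT

variable [MeasurableSpace E] [BorelSpace E]

/-- X05. -/
theorem vol [Finite M.Group] (h : Vecs M n) (hρ : Rep M n ρ) (hC : Chamber M n ρ) :
    (Nat.card M.Group : ℝ) * ∫ x, {x : E | ∀ i, 0 < ⟪n i, x⟫}.indicator gs x = ∫ x : E, gs x :=
  Pool.Agent.H233.Cox.vol h hρ hC

end rep

section sign
variable {B : Type} [Fintype B] [DecidableEq B] {E : Type}
  [NormedAddCommGroup E] [InnerProductSpace ℝ E] [FiniteDimensional ℝ E] [MeasurableSpace E]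
  [BorelSpace E] {n : B → E}

/-- X06. -/
theorem gks (B : Type) [Fintype B] [DecidableEq B] : GKS B :=
  Pool.Agent.H16.Cox.X06.gks B

/-- X07. -/
theorem sines (hG : GKS B) (hn : ∀ i j, i ≠ j → ⟪n i, n j⟫ ≤ 0) (t : B → ℝ) (ht : ∀ j, 0 ≤ t j)
    (k : ℕ) (hk : Fintype.card B = 2 * k) :
    0 ≤ (-1 : ℝ) ^ k * ∫ x : E, gs x * ∏ j, Real.sin (t j * ⟪n j, x⟫) :=
  Pool.Agent.H286.Cox.sines hG hn t ht k hk

/-- X08. -/
theorem lapl : Lapl :=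
  Pool.Agent.H806.Cox.lapl 

/-- X09. -/
theorem arctans (hL : Lapl) (k : ℕ)
    (hs : ∀ t : B → ℝ, (∀ j, 0 ≤ t j) →
      0 ≤ (-1 : ℝ) ^ k * ∫ x : E, gs x * ∏ j, Real.sin (t j * ⟪n j, x⟫)) (ε : ℝ) (hε : 0 < ε) :
    0 ≤ (-1 : ℝ) ^ k * ∫ x : E, gs x * ∏ j, Real.arctan (⟪n j, x⟫ / ε) :=
  Pool.Agent.H505.CoxArctans.arctans hL k hs ε hε

/-- X10. -/
theorem signs (k : ℕ)
    (ha : ∀ ε : ℝ, 0 < ε → 0 ≤ (-1 : ℝ) ^ k * ∫ x : E, gs x * ∏ j, Real.arctan (⟪n j, x⟫ / ε)) :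
    0 ≤ (-1 : ℝ) ^ k * ∫ x : E, gs x * ∏ j, ((SignType.sign ⟪n j, x⟫ : SignType) : ℝ) :=
  Pool.Agent.H824.Cox.signs k ha

/-- X11a. -/
theorem odd_zero (ho : Odd (Fintype.card B)) :
    ∫ x : E, gs x * ∏ j, ((SignType.sign ⟪n j, x⟫ : SignType) : ℝ) = 0 :=
  Pool.Agent.H824.Cox.odd_zero ho

/-- X11b. -/
theorem expand (hn : ∀ i, n i ≠ 0) (N : Finset B → ℝ) (hN : ∀ U, N U ≠ 0)
    (hv : ∀ U : Finset B, N U * ∫ x, {x : E | ∀ i ∈ U, 0 < ⟪n i, x⟫}.indicator gs x = ∫ x : E, gs x) :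
    (∑ U : Finset B, (-1 / 2 : ℝ) ^ (Fintype.card B - U.card) / N U) * ∫ x : E, gs x =
      (1 / 2) ^ Fintype.card B *
        ∫ x : E, gs x * ∏ j, ((SignType.sign ⟪n j, x⟫ : SignType) : ℝ) :=
  Pool.Agent.H824.Cox.expand hn N hN hv

/-- X11c. -/
theorem gs_pos : 0 < ∫ x : E, gs x :=
  Pool.Agent.H824.Cox.gs_pos 

end sign

section posdef
variable {B : Type} [Fintype B] [DecidableEq B] {M : CoxeterMatrix B}

/-- X12a. -/
theorem geom_rep (hm : ∀ i j, M i j ≠ 0) :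
    ∃ ρ : M.Group →* ((B → ℝ) ≃ₗ[ℝ] (B → ℝ)), ∀ i x, ρ (M.simple i) x =
      x - (2 * ∑ j, -Real.cos (Real.pi / M i j) * x j) • Pi.single i (1 : ℝ) :=
  Pool.Agent.H767.Cox.geom_rep hm

/-- X12b. -/
theorem exists_vecs [Finite M.Group] (ρ : M.Group →* ((B → ℝ) ≃ₗ[ℝ] (B → ℝ)))
    (hρ : ∀ i x, ρ (M.simple i) x =
      x - (2 * ∑ j, -Real.cos (Real.pi / M i j) * x j) • Pi.single i (1 : ℝ)) :
    ∃ n : B → EuclideanSpace ℝ B, Vecs M n :=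
  Pool.Agent.H685.Cox.exists_vecs ρ hρ

end posdef

/-- X13. -/
theorem transfer {V : Type} [DecidableEq V] (S : Finset (Finset V))
    (hS : ∀ F ∈ S, ∀ G ⊆ F, G ∈ S) (a : Finset V → ℚ) :
    ∑ σ ∈ S, (-1 : ℚ) ^ σ.card * a σ =
      ∑ σ ∈ S, (-1 : ℚ) ^ σ.card * (∑ U ∈ σ.powerset, (-1 / 2 : ℚ) ^ (σ.card - U.card) * a U) *
        ∑ ρ ∈ S.filter (fun ρ => Disjoint ρ σ ∧ ρ ∪ σ ∈ S), (-1 / 2 : ℚ) ^ ρ.card :=
  Pool.Agent.H120.Cox.X13.transfer S hS a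

end Pool.Agent.H128.Cox.Lem
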