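import Pool.Agent.H128.Cox.Defs

set_option autoImplicit false
set_option linter.unusedSectionVars false

/-! X13: the weighted sum as a sum over links. -/

namespace Pool.Agent.H120.Cox.X13

open scoped RealInnerProductSpace
open MeasureTheory Pool.Agent.H128.Cox

theorem inner_sum {V : Type} [DecidableEq V] (U τ : Finset V) (hU : U ⊆ τ) :
    ∑ σ ∈ τ.powerset.filter (fun σ => U ⊆ σ), (-1 : ℚ) ^ σ.card = if U = τ then (-1 : ℚ) ^ τ.card else 0 := by
  have h1 : ∑ σ ∈ τ.powerset.filter (fun σ => U ⊆ σ), (-1 : ℚ) ^ σ.card =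
      ∑ σ ∈ (τ \ U).powerset, (-1 : ℚ) ^ U.card * (-1 : ℚ) ^ σ.card := by
    refine Finset.sum_nbij' (fun σ => σ \ U) (fun σ => U ∪ σ) ?_ ?_ ?_ ?_ ?_
    · intro σ hσ
      simp only [Finset.mem_filter, Finset.mem_powerset] at hσ ⊢
      exact Finset.sdiff_subset_sdiff hσ.1 (Finset.Subset.refl _)
    · intro σ hσ
      simp only [Finset.mem_filter, Finset.mem_powerset] at hσ ⊢
      exact ⟨Finset.union_subset hU (hσ.trans Finset.sdiff_subset), Finset.subset_union_left⟩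
    · intro σ hσ
      simp only [Finset.mem_filter, Finset.mem_powerset] at hσ
      exact Finset.union_sdiff_of_subset hσ.2
    · intro σ hσ
      simp only [Finset.mem_powerset] at hσ
      ext x
      simp only [Finset.mem_sdiff, Finset.mem_union]
      have := @hσ x
      simp only [Finset.mem_sdiff] at this
      tauto
    · intro σ hσ
      simp only [Finset.mem_filter, Finset.mem_powerset] at hσ
      have h2 := Finset.card_sdiff_add_card_eq_card hσ.2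
      rw [← pow_add, ← h2, add_comm]
  have h2 : ∑ σ ∈ (τ \ U).powerset, (-1 : ℚ) ^ σ.card = if τ \ U = ∅ then 1 else 0 := by
    have h3 := Finset.sum_powerset_neg_one_pow_card (x := τ \ U)
    exact_mod_cast congrArg (fun z : ℤ => (z : ℚ)) h3
  rw [h1, ← Finset.mul_sum, h2]
  by_cases h3 : U = τ
  · subst h3
    simp
  · have h4 : τ \ U ≠ ∅ := fun h => h3 (Finset.Subset.antisymm hU (Finset.sdiff_eq_empty_iff_subset.mp h))
    rw [if_neg h4, if_neg h3, mul_zero]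

theorem step_c {V : Type} [DecidableEq V] (a : Finset V → ℚ) (τ : Finset V) :
    ∑ σ ∈ τ.powerset, (-1 : ℚ) ^ σ.card * ∑ U ∈ σ.powerset, (-1 / 2 : ℚ) ^ (τ.card - U.card) * a U =
      (-1 : ℚ) ^ τ.card * a τ := by
  have h1 : ∀ σ ∈ τ.powerset, (-1 : ℚ) ^ σ.card * ∑ U ∈ σ.powerset, (-1 / 2 : ℚ) ^ (τ.card - U.card) * a U =
      ∑ U ∈ τ.powerset, if U ⊆ σ then (-1 : ℚ) ^ σ.card * ((-1 / 2 : ℚ) ^ (τ.card - U.card) * a U) else 0 := by
    intro σ hσ
    rw [Finset.mem_powerset] at hσ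
    rw [Finset.mul_sum, ← Finset.sum_filter]
    refine Finset.sum_congr ?_ fun _ _ => rfl
    ext U
    simp only [Finset.mem_filter, Finset.mem_powerset]
    exact ⟨fun h => ⟨h.trans hσ, h⟩, fun h => h.2⟩
  rw [Finset.sum_congr rfl h1, Finset.sum_comm]
  have h2 : ∀ U ∈ τ.powerset, ∑ σ ∈ τ.powerset,
      (if U ⊆ σ then (-1 : ℚ) ^ σ.card * ((-1 / 2 : ℚ) ^ (τ.card - U.card) * a U) else 0) =
      if U = τ then (-1 : ℚ) ^ τ.card * a τ else 0 := by
    intro U hU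
    rw [Finset.mem_powerset] at hU
    rw [← Finset.sum_filter, ← Finset.sum_mul, inner_sum U τ hU]
    by_cases h3 : U = τ
    · subst h3
      simp
    · rw [if_neg h3, if_neg h3, zero_mul]
  rw [Finset.sum_congr rfl h2, Finset.sum_ite_eq' τ.powerset τ, if_pos (Finset.mem_powerset_self τ)]

theorem step_a {V : Type} [DecidableEq V] (S : Finset (Finset V))
    (hS : ∀ F ∈ S, ∀ G ⊆ F, G ∈ S) (σ : Finset V) :
    ∑ ρ ∈ S.filter (fun ρ => Disjoint ρ σ ∧ ρ ∪ σ ∈ S), (-1 / 2 : ℚ) ^ ρ.card =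
      ∑ τ ∈ S.filter (fun τ => σ ⊆ τ), (-1 / 2 : ℚ) ^ (τ.card - σ.card) := by
  refine Finset.sum_nbij' (fun ρ => ρ ∪ σ) (fun τ => τ \ σ) ?_ ?_ ?_ ?_ ?_
  · intro ρ hρ
    simp only [Finset.mem_filter] at hρ ⊢
    exact ⟨hρ.2.2, Finset.subset_union_right⟩
  · intro τ hτ
    simp only [Finset.mem_filter] at hτ ⊢
    refine ⟨hS τ hτ.1 _ Finset.sdiff_subset, Finset.sdiff_disjoint, ?_⟩
    rw [Finset.sdiff_union_of_subset hτ.2]
    exact hτ.1
  · intro ρ hρ
    simp only [Finset.mem_filter] at hρ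
    exact Finset.union_sdiff_cancel_right hρ.2.1
  · intro τ hτ
    simp only [Finset.mem_filter] at hτ
    exact Finset.sdiff_union_of_subset hτ.2
  · intro ρ hρ
    simp only [Finset.mem_filter] at hρ
    rw [Finset.card_union_of_disjoint hρ.2.1, Nat.add_sub_cancel]

/-- X13. -/
theorem transfer {V : Type} [DecidableEq V] (S : Finset (Finset V))
    (hS : ∀ F ∈ S, ∀ G ⊆ F, G ∈ S) (a : Finset V → ℚ) :
    ∑ σ ∈ S, (-1 : ℚ) ^ σ.card * a σ =
      ∑ σ ∈ S, (-1 : ℚ) ^ σ.card * (∑ U ∈ σ.powerset, (-1 / 2 : ℚ) ^ (σ.card - U.card) * a U) *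
        ∑ ρ ∈ S.filter (fun ρ => Disjoint ρ σ ∧ ρ ∪ σ ∈ S), (-1 / 2 : ℚ) ^ ρ.card := by
  symm
  have h1 : ∀ σ ∈ S, (-1 : ℚ) ^ σ.card * (∑ U ∈ σ.powerset, (-1 / 2 : ℚ) ^ (σ.card - U.card) * a U) *
        ∑ ρ ∈ S.filter (fun ρ => Disjoint ρ σ ∧ ρ ∪ σ ∈ S), (-1 / 2 : ℚ) ^ ρ.card =
      ∑ τ ∈ S, if σ ⊆ τ then
        (-1 : ℚ) ^ σ.card * ∑ U ∈ σ.powerset, (-1 / 2 : ℚ) ^ (τ.card - U.card) * a U else 0 := by
    intro σ _
    rw [step_a S hS σ, Finset.mul_sum, ← Finset.sum_filter]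
    refine Finset.sum_congr rfl fun τ hτ => ?_
    have hst := (Finset.mem_filter.mp hτ).2
    rw [mul_assoc, Finset.sum_mul]
    congr 1
    refine Finset.sum_congr rfl fun U hU => ?_
    rw [Finset.mem_powerset] at hU
    have c1 := Finset.card_le_card hst
    have c2 := Finset.card_le_card hU
    rw [show τ.card - U.card = (σ.card - U.card) + (τ.card - σ.card) by omega, pow_add]
    ring
  rw [Finset.sum_congr rfl h1, Finset.sum_comm]
  refine Finset.sum_congr rfl fun τ hτ => ?_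
  rw [← step_c a τ, ← Finset.sum_filter]
  refine Finset.sum_congr ?_ fun _ _ => rfl
  ext σ
  simp only [Finset.mem_filter, Finset.mem_powerset]
  exact ⟨fun h => h.2, fun h => ⟨hS τ hτ σ h, h⟩⟩

end Pool.Agent.H120.Cox.X13
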